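import Pool.Agent.W381.QG.Env

/-!
# Closed subgroups of `U_N⁺`, their corepresentations, growth, and diagonal tori

The definitions follow Woronowicz's formalism with the extra axiom `S² = id`.
-/

noncomputable section

namespace Pool.Agent.W381.QG

open scoped TensorProduct Matrix

/-- The maximal C*-tensor square `C ⊗ C` of a unital C*-algebra `C`, given by its universal
property: the universal C*-algebra with two commuting `*`-homomorphisms `left a = a ⊗ 1` and
`right b = 1 ⊗ b` from `C`. -/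
structure TensorSquare (C : Type) [CStarAlgebra C] where
  /-- the C*-algebra `C ⊗ C` -/
  T : Type
  /-- its C*-algebra structure -/
  [cstarT : CStarAlgebra T]
  /-- `a ↦ a ⊗ 1` -/
  left : C →⋆ₐ[ℂ] T
  /-- `b ↦ 1 ⊗ b` -/
  right : C →⋆ₐ[ℂ] T
  comm : ∀ a b, left a * right b = right b * left a
  lift : ∀ (D : Type) [CStarAlgebra D] (φ ψ : C →⋆ₐ[ℂ] D), (∀ a b, φ a * ψ b = ψ b * φ a) →
    ∃! θ : T →⋆ₐ[ℂ] D, (∀ a, θ (left a) = φ a) ∧ ∀ b, θ (right b) = ψ b

attribute [instance] TensorSquare.cstarT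

/-- The elementary tensor `a ⊗ b` in the maximal C*-tensor square. -/
def TensorSquare.tmul {C : Type} [CStarAlgebra C] (S : TensorSquare C) (a b : C) : S.T :=
  S.left a * S.right b

/-- A closed quantum subgroup `G ⊂ U_N⁺`: a unital C*-algebra `C = C(G)` generated by the entries of
a unitary `u ∈ M_N(C)` such that `Δ(u_ij) = ∑ₖ u_ik ⊗ u_kj`, `ε(u_ij) = δ_ij`, `S(u_ij) = u_ji*`
define morphisms of C*-algebras `Δ : C → C ⊗ C` (maximal C*-tensor product), `ε : C → ℂ` and
`S : C → Cᵒᵖ`. -/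
structure ClosedSubgroup (N : ℕ) where
  /-- the C*-algebra `C(G)` -/
  C : Type
  /-- its C*-algebra structure -/
  [cstar : CStarAlgebra C]
  /-- the fundamental corepresentation -/
  u : Matrix (Fin N) (Fin N) C
  unitary_left : uᴴ * u = 1
  unitary_right : u * uᴴ = 1
  /-- the entries of `u` generate `C(G)` as a C*-algebra -/
  generates : (StarAlgebra.adjoin ℂ {a | ∃ i j, u i j = a}).topologicalClosure = ⊤
  /-- the C*-algebra `C(G) ⊗ C(G)` -/
  square : TensorSquare C
  /-- the comultiplication -/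
  comul : C →⋆ₐ[ℂ] square.T
  comul_u : ∀ i j, comul (u i j) = ∑ k, square.tmul (u i k) (u k j)
  /-- the counit -/
  counit : C →⋆ₐ[ℂ] ℂ
  counit_u : ∀ i j, counit (u i j) = if i = j then 1 else 0
  /-- the antipode -/
  antipode : C →⋆ₐ[ℂ] Cᵐᵒᵖ
  antipode_u : ∀ i j, antipode (u i j) = MulOpposite.op (star (u j i))

namespace ClosedSubgroup

attribute [instance] ClosedSubgroup.cstar

variable {N : ℕ} (G : ClosedSubgroup N)

/-- A scalar matrix regarded as a matrix over `C(G)`. -/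
def sc {m n : Type} (T : Matrix m n ℂ) : Matrix m n G.C := T.map (algebraMap ℂ G.C)

section corep

variable {m n : Type} [Fintype m] [DecidableEq m] [Fintype n] [DecidableEq n]

/-- `w` is a (finite dimensional) unitary corepresentation of `G`. -/
def IsCorep (w : Matrix n n G.C) : Prop :=
  wᴴ * w = 1 ∧ w * wᴴ = 1 ∧ ∀ i j, G.comul (w i j) = ∑ k, G.square.tmul (w i k) (w k j)

/-- `T` is an intertwiner from `v` to `w`. -/
def Intertwines (v : Matrix n n G.C) (w : Matrix m m G.C) (T : Matrix m n ℂ) : Prop :=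
  G.sc T * v = w * G.sc T

/-- `w` is irreducible: it is non-zero and its only self-intertwiners are the scalars. -/
def Irreducible (w : Matrix n n G.C) : Prop :=
  Nonempty n ∧ ∀ T : Matrix n n ℂ, G.Intertwines w w T → ∃ c : ℂ, T = c • 1

/-- `v` and `w` are unitarily equivalent. -/
def Equivalent (v : Matrix n n G.C) (w : Matrix m m G.C) : Prop :=
  ∃ T : Matrix m n ℂ, Tᴴ * T = 1 ∧ T * Tᴴ = 1 ∧ G.Intertwines v w T

/-- `v ⊂ w`: `v` is equivalent to a subcorepresentation of `w`, i.e. there is an isometric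
intertwiner from `v` to `w`. -/
def Contained (v : Matrix n n G.C) (w : Matrix m m G.C) : Prop :=
  ∃ T : Matrix m n ℂ, Tᴴ * T = 1 ∧ G.Intertwines v w T

/-- The tensor power `w^{⊗k}`. -/
def power (w : Matrix n n G.C) (k : ℕ) : Matrix (Fin k → n) (Fin k → n) G.C :=
  fun f g => (List.ofFn fun i => w (f i) (g i)).prod

end corep

/-- The corepresentation `1 ⊕ u ⊕ ū`, where `ū = (u_ij*)`. -/
def base : Matrix (Unit ⊕ Fin N ⊕ Fin N) (Unit ⊕ Fin N ⊕ Fin N) G.C :=
  Matrix.fromBlocks 1 0 0 (Matrix.fromBlocks G.u 0 0 (G.u.map star))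

/-- `ℓ(r) ≤ k`: `r ⊂ (1 ⊕ u ⊕ ū)^{⊗j}` for some `j ≤ k`. -/
def LengthLE {n : Type} [Fintype n] [DecidableEq n] (r : Matrix n n G.C) (k : ℕ) : Prop :=
  ∃ j ≤ k, G.Contained r (G.power G.base j)

/-- A finite family of pairwise inequivalent irreducible unitary corepresentations of length at
most `k`. -/
def IrredFamily (k m : ℕ) (d : Fin m → ℕ) (r : ∀ i, Matrix (Fin (d i)) (Fin (d i)) G.C) : Prop :=
  (∀ i, G.IsCorep (r i) ∧ G.Irreducible (r i) ∧ G.LengthLE (r i) k) ∧
    ∀ i j, i ≠ j → ¬ G.Equivalent (r i) (r j)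

/-- `b_k = ∑_{ℓ(r) ≤ k} dim(r)²`, the sum over the classes of irreducible unitary
corepresentations of length at most `k`, as the supremum of its finite subsums. -/
def b (k : ℕ) : ℕ∞ :=
  ⨆ (m : ℕ) (d : Fin m → ℕ) (r : ∀ i, Matrix (Fin (d i)) (Fin (d i)) G.C)
    (_ : G.IrredFamily k m d r), ((∑ i, d i ^ 2 : ℕ) : ℕ∞)

/-- The discrete dual of `G` has polynomial growth. -/
def DualPolynomialGrowth : Prop := ∃ C d : ℕ, ∀ k : ℕ, 1 ≤ k → G.b k ≤ (C * k ^ d : ℕ)

/-- `v = Q u Q*`. -/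
def conj (Q : Matrix (Fin N) (Fin N) ℂ) : Matrix (Fin N) (Fin N) G.C :=
  G.sc Q * G.u * G.sc Qᴴ

/-- The closed two-sided ideal of `C(G)` generated by the `v_ij`, `i ≠ j`. -/
def torusIdeal (Q : Matrix (Fin N) (Fin N) ℂ) : TwoSidedIdeal G.C :=
  sInf {I : TwoSidedIdeal G.C | IsClosed (I : Set G.C) ∧ ∀ i j, i ≠ j → G.conj Q i j ∈ I}

/-- The quotient `C(G) / ⟨v_ij = 0, i ≠ j⟩`. -/
abbrev TorusQuot (Q : Matrix (Fin N) (Fin N) ℂ) : Type := (G.torusIdeal Q).ringCon.Quotient

/-- The quotient map `C(G) → C(G) / ⟨v_ij = 0, i ≠ j⟩`. -/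
def toTorus (Q : Matrix (Fin N) (Fin N) ℂ) : G.C →+* G.TorusQuot Q := (G.torusIdeal Q).ringCon.mk'

/-- The units of the quotient given by the images `g_i` of the `v_ii` (by `isUnit_toTorus` every
such image is a unit). -/
def torusGens (Q : Matrix (Fin N) (Fin N) ℂ) : Set (G.TorusQuot Q)ˣ :=
  {g | ∃ i, (g : G.TorusQuot Q) = G.toTorus Q (G.conj Q i i)}

/-- The group `Γ_Q` generated by the `g_i`. -/
def torus (Q : Matrix (Fin N) (Fin N) ℂ) : Subgroup (G.TorusQuot Q)ˣ :=
  Subgroup.closure (G.torusGens Q)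

/-- The group `Γ_Q` is trivial. -/
def TorusTrivial (Q : Matrix (Fin N) (Fin N) ℂ) : Prop := G.torus Q = ⊥

/-- The off-diagonal entries of `v` vanish in the quotient. -/
lemma toTorus_off {Q : Matrix (Fin N) (Fin N) ℂ} {i j : Fin N} (hij : i ≠ j) :
    G.toTorus Q (G.conj Q i j) = 0 := by
  have h : G.conj Q i j ∈ G.torusIdeal Q := by
    rw [torusIdeal, TwoSidedIdeal.mem_sInf]
    intro I hI
    exact hI.2 i j hij
  have h2 : (G.torusIdeal Q).ringCon (G.conj Q i j) 0 := h
  have h3 := (RingCon.eq (G.torusIdeal Q).ringCon).2 h2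
  exact h3

/-- the scalar matrices over `C(G)` multiply as usual -/
lemma sc_mul {l m n : Type} [Fintype m] (S : Matrix l m ℂ) (T : Matrix m n ℂ) :
    G.sc (S * T) = G.sc S * G.sc T := by
  simp [sc, Matrix.map_mul]

lemma sc_one {n : Type} [DecidableEq n] : G.sc (1 : Matrix n n ℂ) = 1 := by
  simp [sc]

lemma sc_conjTranspose {m n : Type} (S : Matrix m n ℂ) : (G.sc S)ᴴ = G.sc Sᴴ := by
  ext i j
  simp only [sc, Matrix.conjTranspose_apply, Matrix.map_apply]
  rw [algebraMap_star_comm]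

/-- The images of the `v_ii` are units of the quotient. -/
lemma isUnit_toTorus {Q : Matrix (Fin N) (Fin N) ℂ} (hQ : Q ∈ Matrix.unitaryGroup (Fin N) ℂ)
    (i : Fin N) : IsUnit (G.toTorus Q (G.conj Q i i)) := by
  have hQ1 : Qᴴ * Q = 1 := (Matrix.mem_unitaryGroup_iff').1 hQ
  have hQ2 : Q * Qᴴ = 1 := (Matrix.mem_unitaryGroup_iff).1 hQ
  have h1 : G.sc Qᴴ * G.sc Q = 1 := by rw [← sc_mul, hQ1, sc_one]
  have h2 : G.sc Q * G.sc Qᴴ = 1 := by rw [← sc_mul, hQ2, sc_one]
  have hv1 : (G.conj Q)ᴴ * G.conj Q = 1 := by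
    rw [conj, Matrix.conjTranspose_mul, Matrix.conjTranspose_mul, sc_conjTranspose,
      sc_conjTranspose, Matrix.conjTranspose_conjTranspose]
    calc G.sc Q * (G.uᴴ * G.sc Qᴴ) * (G.sc Q * G.u * G.sc Qᴴ)
        = G.sc Q * (G.uᴴ * ((G.sc Qᴴ * G.sc Q) * G.u)) * G.sc Qᴴ := by
          simp only [Matrix.mul_assoc]
      _ = 1 := by rw [h1, Matrix.one_mul, G.unitary_left, Matrix.mul_one, h2]
  have hv2 : G.conj Q * (G.conj Q)ᴴ = 1 := by
    rw [conj, Matrix.conjTranspose_mul, Matrix.conjTranspose_mul, sc_conjTranspose,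
      sc_conjTranspose, Matrix.conjTranspose_conjTranspose]
    calc G.sc Q * G.u * G.sc Qᴴ * (G.sc Q * (G.uᴴ * G.sc Qᴴ))
        = G.sc Q * (G.u * ((G.sc Qᴴ * G.sc Q) * G.uᴴ)) * G.sc Qᴴ := by
          simp only [Matrix.mul_assoc]
      _ = 1 := by rw [h1, Matrix.one_mul, G.unitary_right, Matrix.mul_one, h2]
  refine ⟨⟨G.toTorus Q (G.conj Q i i), G.toTorus Q (star (G.conj Q i i)), ?_, ?_⟩, rfl⟩
  · have h := congrFun (congrFun hv2 i) i
    rw [Matrix.mul_apply, Matrix.one_apply, if_pos rfl] at h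
    have h3 := congrArg (G.toTorus Q) h
    rw [map_sum, map_one, Finset.sum_eq_single i] at h3
    · rw [map_mul] at h3; exact h3
    · intro k _ hk
      rw [map_mul, G.toTorus_off (Ne.symm hk), zero_mul]
    · simp
  · have h := congrFun (congrFun hv1 i) i
    rw [Matrix.mul_apply, Matrix.one_apply, if_pos rfl] at h
    have h3 := congrArg (G.toTorus Q) h
    rw [map_sum, map_one, Finset.sum_eq_single i] at h3
    · rw [map_mul] at h3; exact h3
    · intro k _ hk
      rw [map_mul, G.toTorus_off hk, mul_zero]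
    · simp

/-- Evaluation of a noncommutative polynomial in the variables `(false, i, j)` and `(true, i, j)`
at the elements `w_ij` and `w_ij*` of a `*`-algebra. -/
def evalPoly {D : Type} [CStarAlgebra D] (w : Matrix (Fin N) (Fin N) D)
    (p : FreeAlgebra ℂ (Bool × Fin N × Fin N)) : D :=
  FreeAlgebra.lift ℂ (fun x => if x.1 then star (w x.2.1 x.2.2) else w x.2.1 x.2.2) p

/-- `C(G)` is the full (maximal) C*-algebra `C_max(G)` of `G`: if elements `w_ij` of a C*-algebra
`D` satisfy all the `*`-polynomial relations satisfied by the `u_ij`, then `u_ij ↦ w_ij` extends to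
a `*`-homomorphism `C(G) → D`. -/
def IsFull : Prop := ∀ (D : Type) [CStarAlgebra D] (w : Matrix (Fin N) (Fin N) D),
  (∀ p, evalPoly G.u p = 0 → evalPoly w p = 0) →
    ∃ φ : G.C →⋆ₐ[ℂ] D, ∀ i j, φ (G.u i j) = w i j

/-- `h` is the Haar state: a state with `(h ⊗ id) Δ(a) = h(a) 1 = (id ⊗ h) Δ(a)` for all the
coefficients `a = w_ij` of the corepresentations `w = (1 ⊕ u ⊕ ū)^{⊗k}` (these coefficients span the
dense `*`-subalgebra generated by the `u_ij`, and `Δ(w_ij) = ∑ₗ w_il ⊗ w_lj`). -/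
structure IsHaarState (h : G.C →ₗ[ℂ] ℂ) : Prop where
  map_one : h 1 = 1
  nonneg : ∀ a, 0 ≤ (h (star a * a)).re ∧ (h (star a * a)).im = 0
  left_inv : ∀ k i j, ∑ l, h (G.power G.base k i l) • G.power G.base k l j =
    h (G.power G.base k i j) • (1 : G.C)
  right_inv : ∀ k i j, ∑ l, h (G.power G.base k l j) • G.power G.base k i l =
    h (G.power G.base k i j) • (1 : G.C)

/-- Coamenability of `G`, for `C(G) = C_max(G)`: the canonical quotient map `C_max(G) → C_min(G)` is
injective, hence an isomorphism.  Here `C_min(G)` is the image of `C(G)` in the GNS representation of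
the Haar state `h`, on the completion of `C(G)` in the norm `b ↦ h(b*b)^{1/2}`, so that `a` is mapped
to `0` if and only if `h((ab)*(ab)) = 0` for all `b`. -/
def Coamenable : Prop :=
  ∀ h : G.C →ₗ[ℂ] ℂ, G.IsHaarState h →
    ∀ a, (∀ b, h (star (a * b) * (a * b)) = 0) → a = 0

end ClosedSubgroup

/-- The ball of radius `k` for the word length of a subset `S` of a group. -/
def wordBall {H : Type} [Group H] (S : Set H) (k : ℕ) : Set H :=
  {x | ∃ l : List H, l.length ≤ k ∧ (∀ s ∈ l, s ∈ S ∨ s⁻¹ ∈ S) ∧ l.prod = x}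

/-- `Γ_Q` has polynomial growth for the word length in the generators `g_i`. -/
def ClosedSubgroup.TorusPolynomialGrowth {N : ℕ} (G : ClosedSubgroup N)
    (Q : Matrix (Fin N) (Fin N) ℂ) : Prop :=
  ∃ C d : ℕ, ∀ k : ℕ, 1 ≤ k → (wordBall (G.torusGens Q) k).encard ≤ (C * k ^ d : ℕ)

/-- Amenability of a discrete group: there is a left-invariant finitely additive probability
measure defined on all subsets. -/
def IsAmenableGroup (H : Type) [Group H] : Prop :=
  ∃ μ : Set H → ℝ, (∀ A, 0 ≤ μ A) ∧ μ Set.univ = 1 ∧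
    (∀ A B, Disjoint A B → μ (A ∪ B) = μ A + μ B) ∧ ∀ (g : H) (A : Set H), μ ((g * ·) '' A) = μ A

end Pool.Agent.W381.QG
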