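import Pool.Agent.W381.QG.Twist
import Pool.Agent.W381.QG.Square

/-!
# The twisted dual of a finitely generated group as a closed subgroup of `U_N⁺`
-/

set_option linter.unusedSectionVars false
set_option linter.unusedSimpArgs false

noncomputable section

namespace Pool.Agent.W381.QG

open scoped TensorProduct Matrix

/-- The tensor product of two `*`-homomorphisms. -/
def mapStar {A B C D : Type*} [Ring A] [StarRing A] [Algebra ℂ A] [StarModule ℂ A]
    [Ring B] [StarRing B] [Algebra ℂ B] [StarModule ℂ B]
    [Ring C] [StarRing C] [Algebra ℂ C] [StarModule ℂ C]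
    [Ring D] [StarRing D] [Algebra ℂ D] [StarModule ℂ D]
    (f : A →⋆ₐ[ℂ] C) (g : B →⋆ₐ[ℂ] D) : A ⊗[ℂ] B →⋆ₐ[ℂ] C ⊗[ℂ] D where
  __ := Algebra.TensorProduct.map (f : A →ₐ[ℂ] C) (g : B →ₐ[ℂ] D)
  map_star' t := by
    show Algebra.TensorProduct.map (f : A →ₐ[ℂ] C) (g : B →ₐ[ℂ] D) (star t) =
      star (Algebra.TensorProduct.map (f : A →ₐ[ℂ] C) (g : B →ₐ[ℂ] D) t)
    induction t with
    | zero => simp
    | tmul a b => simp [TensorProduct.star_tmul, StarHomClass.map_star]
    | add s t hs ht => rw [star_add, map_add, map_add, star_add, hs, ht]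

lemma mapStar_tmul {A B C D : Type*} [Ring A] [StarRing A] [Algebra ℂ A] [StarModule ℂ A]
    [Ring B] [StarRing B] [Algebra ℂ B] [StarModule ℂ B]
    [Ring C] [StarRing C] [Algebra ℂ C] [StarModule ℂ C]
    [Ring D] [StarRing D] [Algebra ℂ D] [StarModule ℂ D]
    (f : A →⋆ₐ[ℂ] C) (g : B →⋆ₐ[ℂ] D) (a : A) (b : B) :
    mapStar f g (a ⊗ₜ b) = f a ⊗ₜ g b := rfl

/-- the opposite of a `*`-homomorphism -/
def opStar {A C : Type*} [Ring A] [StarRing A] [Algebra ℂ A] [StarModule ℂ A]
    [Ring C] [StarRing C] [Algebra ℂ C] [StarModule ℂ C] (f : A →⋆ₐ[ℂ] C) :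
    Aᵐᵒᵖ →⋆ₐ[ℂ] Cᵐᵒᵖ where
  __ := AlgHom.op (f : A →ₐ[ℂ] C)
  map_star' t := by
    show MulOpposite.op (f (MulOpposite.unop (star t))) = star (MulOpposite.op (f (MulOpposite.unop t)))
    rw [MulOpposite.unop_star, StarHomClass.map_star, MulOpposite.op_star]

lemma opStar_op {A C : Type*} [Ring A] [StarRing A] [Algebra ℂ A] [StarModule ℂ A]
    [Ring C] [StarRing C] [Algebra ℂ C] [StarModule ℂ C] (f : A →⋆ₐ[ℂ] C) (a : A) :
    opStar f (MulOpposite.op a) = MulOpposite.op (f a) := rfl

variable {Λ : Type} [Group Λ] (K : Klein Λ)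

namespace Klein

/-- `w` is a unitary corepresentation of the twisted Hopf `*`-algebra of a group algebra, compatible
with counit and antipode. -/
structure IsRep {n : Type} [Fintype n] [DecidableEq n] (w : Matrix n n (GA Λ)) : Prop where
  row : ∀ i j, ∑ k, w i k * star (w j k) = if i = j then 1 else 0
  col : ∀ i j, ∑ k, star (w k i) * w k j = if i = j then 1 else 0
  comul : ∀ i j, K.DeltaJ (w i j) = ∑ k, w i k ⊗ₜ[ℂ] w k j
  counit : ∀ i j, eps Λ (w i j) = if i = j then 1 else 0
  antip : ∀ i j, K.antip (w i j) = MulOpposite.op (star (w j i))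

lemma isRep_U (g : Λ) : K.IsRep (K.U g) where
  row := K.U_row g
  col := K.U_col g
  comul := K.U_comul g
  counit := K.U_counit g
  antip := K.U_antip g

variable {K} in
/-- Reindexing. -/
lemma IsRep.reindex {n m : Type} [Fintype n] [DecidableEq n] [Fintype m] [DecidableEq m]
    {w : Matrix n n (GA Λ)} (hw : K.IsRep w) (e : m ≃ n) : K.IsRep (w.submatrix e e) where
  row i j := by
    simp only [Matrix.submatrix_apply]
    rw [e.sum_comp (fun k => w (e i) k * star (w (e j) k)), hw.row]
    simp
  col i j := by
    simp only [Matrix.submatrix_apply]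
    rw [e.sum_comp (fun k => star (w k (e i)) * w k (e j)), hw.col]
    simp
  comul i j := by
    simp only [Matrix.submatrix_apply]
    rw [hw.comul, e.sum_comp (fun k => w (e i) k ⊗ₜ[ℂ] w k (e j))]
  counit i j := by
    simp only [Matrix.submatrix_apply]
    rw [hw.counit]
    simp
  antip i j := by
    simp only [Matrix.submatrix_apply]
    rw [hw.antip]

/-- The direct sum of the `U (s t)`, `t ∈ ι`. -/
def big {ι : Type} [DecidableEq ι] (s : ι → Λ) :
    Matrix (ι × (Fin 2 × Fin 2)) (ι × (Fin 2 × Fin 2)) (GA Λ) :=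
  fun p q => if p.1 = q.1 then K.U (s p.1) p.2 q.2 else 0

lemma isRep_big {ι : Type} [Fintype ι] [DecidableEq ι] (s : ι → Λ) : K.IsRep (K.big s) where
  row := by
    rintro ⟨i, a⟩ ⟨j, b⟩
    rw [Fintype.sum_prod_type]
    by_cases hij : i = j
    · subst hij
      rw [Finset.sum_eq_single i]
      · have := K.U_row (s i) a b
        simpa [big, Prod.ext_iff] using this
      · intro k _ hk
        apply Finset.sum_eq_zero
        intro c _
        simp [big, Ne.symm hk]
      · simp
    · have : (⟨i, a⟩ : ι × (Fin 2 × Fin 2)) ≠ ⟨j, b⟩ := fun h => hij (congrArg Prod.fst h)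
      rw [if_neg this]
      apply Finset.sum_eq_zero
      intro k _
      apply Finset.sum_eq_zero
      intro c _
      by_cases h1 : i = k
      · subst h1
        simp [big, Ne.symm hij]
      · simp [big, h1]
  col := by
    rintro ⟨i, a⟩ ⟨j, b⟩
    rw [Fintype.sum_prod_type]
    by_cases hij : i = j
    · subst hij
      rw [Finset.sum_eq_single i]
      · have := K.U_col (s i) a b
        simpa [big, Prod.ext_iff] using this
      · intro k _ hk
        apply Finset.sum_eq_zero
        intro c _
        simp [big, hk]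
      · simp
    · have : (⟨i, a⟩ : ι × (Fin 2 × Fin 2)) ≠ ⟨j, b⟩ := fun h => hij (congrArg Prod.fst h)
      rw [if_neg this]
      apply Finset.sum_eq_zero
      intro k _
      apply Finset.sum_eq_zero
      intro c _
      by_cases h1 : k = i
      · subst h1
        simp [big, hij]
      · simp [big, h1]
  comul := by
    rintro ⟨i, a⟩ ⟨j, b⟩
    rw [Fintype.sum_prod_type]
    by_cases hij : i = j
    · subst hij
      rw [Finset.sum_eq_single i]
      · have := K.U_comul (s i) a b
        simpa [big] using this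
      · intro k _ hk
        apply Finset.sum_eq_zero
        intro c _
        simp [big, hk]
      · simp
    · have h0 : K.big s (i, a) (j, b) = 0 := by simp [big, hij]
      rw [h0, map_zero]
      symm
      apply Finset.sum_eq_zero
      intro k _
      apply Finset.sum_eq_zero
      intro c _
      by_cases h1 : i = k
      · subst h1
        simp [big, hij]
      · simp [big, h1]
  counit := by
    rintro ⟨i, a⟩ ⟨j, b⟩
    by_cases hij : i = j
    · subst hij
      have := K.U_counit (s i) a b
      simpa [big, Prod.ext_iff] using this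
    · simp [big, hij, Prod.ext_iff]
  antip := by
    rintro ⟨i, a⟩ ⟨j, b⟩
    by_cases hij : i = j
    · subst hij
      have := K.U_antip (s i) a b
      simpa [big, Prod.ext_iff] using this
    · simp [big, hij, Ne.symm hij]

lemma gel_eq (g : Λ) :
    gel g = ∑ i : Fin 2, ∑ k : Fin 2, K.U g (i, k) (0, 0) := by
  have h : K.X 0 0 + K.X 1 0 = 1 := by
    rw [X00, X10]; module
  calc gel g = (K.X 0 0 + K.X 1 0) * gel g * (K.X 0 0 + K.X 1 0) := by rw [h, one_mul, mul_one]
    _ = _ := by
      simp only [Fin.sum_univ_two, U]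
      noncomm_ring

/-- The comultiplication of the C*-algebra `C*(Λ)`. -/
def comulC : GroupCStar Λ →⋆ₐ[ℂ] MaxTensor (GroupCStar Λ) (GroupCStar Λ) :=
  Envelope.lift ((toMax.comp (mapStar toC toC)).comp K.DeltaJ)

lemma comulC_toC (a : GA Λ) : K.comulC (toC a) = toMax (mapStar toC toC (K.DeltaJ a)) :=
  Envelope.lift_incl _ a

/-- The counit of the C*-algebra `C*(Λ)`. -/
def counitC (Λ : Type) [Group Λ] : GroupCStar Λ →⋆ₐ[ℂ] ℂ := Envelope.lift (eps Λ)

lemma counitC_toC (a : GA Λ) : counitC Λ (toC a) = eps Λ a := Envelope.lift_incl _ a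

/-- The antipode of the C*-algebra `C*(Λ)`. -/
def antipC : GroupCStar Λ →⋆ₐ[ℂ] (GroupCStar Λ)ᵐᵒᵖ := Envelope.lift ((opStar toC).comp K.antip)

lemma antipC_toC (a : GA Λ) : K.antipC (toC a) = opStar toC (K.antip a) :=
  Envelope.lift_incl _ a

lemma mem_of_gens {ι : Type} [DecidableEq ι] (s : ι → Λ)
    (hs : Subgroup.closure (Set.range s) = ⊤) (S : StarSubalgebra ℂ (GroupCStar Λ))
    (hS : ∀ p q, toC (K.big s p q) ∈ S) (a : GA Λ) : toC a ∈ S := by
  have h1 : ∀ g : Λ, toC (gel g) ∈ S := by
    intro g
    have hg : g ∈ Subgroup.closure (Set.range s) := by rw [hs]; trivial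
    induction hg using Subgroup.closure_induction with
    | mem x hx =>
      obtain ⟨t, rfl⟩ := hx
      rw [K.gel_eq, map_sum]
      refine sum_mem fun i _ => ?_
      rw [map_sum]
      refine sum_mem fun k _ => ?_
      have := hS (t, (i, k)) (t, (0, 0))
      simpa [big] using this
    | one => rw [gel_one, map_one]; exact one_mem S
    | mul x y _ _ hx hy => rw [← gel_mul, map_mul]; exact mul_mem hx hy
    | inv x _ hx => rw [← star_gel, StarHomClass.map_star]; exact star_mem hx
  induction a using MonoidAlgebra.induction_linear with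
  | zero => rw [map_zero]; exact zero_mem S
  | add a b ha hb => rw [map_add]; exact add_mem ha hb
  | single g c => rw [single_eq_smul_gel, map_smul]; exact S.smul_mem (h1 g) c

/-- The closed subgroup of `U_N⁺` whose C*-algebra is the full group C*-algebra `C*(Λ)` with the
comultiplication twisted by `J`; the fundamental corepresentation is the direct sum of the `U (s t)`
over a finite generating family `s` of `Λ`. -/
abbrev twisted {ι : Type} [Fintype ι] [DecidableEq ι] (s : ι → Λ)
    (hs : Subgroup.closure (Set.range s) = ⊤) {N : ℕ} (e : Fin N ≃ ι × (Fin 2 × Fin 2)) :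
    ClosedSubgroup N where
  C := GroupCStar Λ
  u := ((K.big s).submatrix e e).map toC
  unitary_left := by
    ext i j
    have h := ((K.isRep_big s).reindex e).col i j
    rw [Matrix.mul_apply, Matrix.one_apply]
    have h2 := congrArg toC h
    rw [map_sum] at h2
    simp only [Matrix.conjTranspose_apply, Matrix.map_apply, ← StarHomClass.map_star, ← map_mul]
    rw [h2]
    split_ifs <;> simp
  unitary_right := by
    ext i j
    have h := ((K.isRep_big s).reindex e).row i j
    rw [Matrix.mul_apply, Matrix.one_apply]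
    have h2 := congrArg toC h
    rw [map_sum] at h2
    simp only [Matrix.conjTranspose_apply, Matrix.map_apply, ← StarHomClass.map_star, ← map_mul]
    rw [h2]
    split_ifs <;> simp
  generates := by
    rw [eq_top_iff]
    intro z _
    have hd : z ∈ closure (Set.range (toC : GA Λ → GroupCStar Λ)) := denseRange_toC z
    refine closure_mono ?_ hd
    rintro _ ⟨a, rfl⟩
    refine K.mem_of_gens s hs _ ?_ a
    intro p q
    refine StarAlgebra.subset_adjoin _ _ ⟨e.symm p, e.symm q, ?_⟩
    simp
  square := maxSquare (GroupCStar Λ)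
  comul := K.comulC
  comul_u i j := by
    simp only [Matrix.map_apply, maxSquare_tmul]
    refine (K.comulC_toC _).trans ?_
    rw [((K.isRep_big s).reindex e).comul, map_sum, map_sum]
    simp only [mapStar_tmul]
    rfl
  counit := counitC Λ
  counit_u i j := by
    simp only [Matrix.map_apply]
    rw [counitC_toC, ((K.isRep_big s).reindex e).counit]
  antipode := K.antipC
  antipode_u i j := by
    simp only [Matrix.map_apply]
    rw [antipC_toC, ((K.isRep_big s).reindex e).antip, opStar_op, StarHomClass.map_star]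

end Klein

end Pool.Agent.W381.QG
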