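import Pool.Agent.W381.QG.GA

/-!
# The left regular representation of a group on `ℓ²(Λ)`
-/

set_option linter.unusedSectionVars false
set_option linter.unusedSimpArgs false

noncomputable section

namespace Pool.Agent.W381.QG

open scoped ENNReal InnerProductSpace

/-- `ℓ²(Λ)` -/
abbrev l2 (Λ : Type) : Type := lp (fun _ : Λ => ℂ) 2

variable {Λ : Type} [Group Λ]

lemma two_toReal : (2 : ℝ≥0∞).toReal = 2 := by norm_num

lemma memlp_comp (f : l2 Λ) (σ : Equiv.Perm Λ) :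
    Memℓp (fun x => (f : Λ → ℂ) (σ x)) 2 := by
  have h := lp.memℓp f
  rw [memℓp_gen_iff (by norm_num)] at h ⊢
  exact (σ.summable_iff).2 h

/-- translation by a group element as a linear map -/
def trLin (g : Λ) : l2 Λ →ₗ[ℂ] l2 Λ where
  toFun f := ⟨fun x => f (g⁻¹ * x), memlp_comp f (Equiv.mulLeft g⁻¹)⟩
  map_add' f h := by ext x; rfl
  map_smul' c f := by ext x; rfl

lemma trLin_apply (g : Λ) (f : l2 Λ) (x : Λ) : (trLin g f : Λ → ℂ) x = f (g⁻¹ * x) := rfl

lemma norm_trLin (g : Λ) (f : l2 Λ) : ‖trLin g f‖ = ‖f‖ := by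
  have h2 : (0 : ℝ) < (2 : ℝ≥0∞).toReal := by norm_num
  have h : ‖trLin g f‖ ^ (2 : ℝ≥0∞).toReal = ‖f‖ ^ (2 : ℝ≥0∞).toReal := by
    rw [lp.norm_rpow_eq_tsum h2, lp.norm_rpow_eq_tsum h2]
    simp only [trLin_apply]
    exact (Equiv.mulLeft g⁻¹).tsum_eq (fun x => ‖f x‖ ^ (2 : ℝ≥0∞).toReal)
  have h3 := Real.rpow_left_injOn (ne_of_gt h2) (norm_nonneg _) (norm_nonneg _) h
  exact h3

/-- translation by a group element as a bounded operator -/
def tr (g : Λ) : l2 Λ →L[ℂ] l2 Λ :=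
  (trLin g).mkContinuous 1 (fun f => by rw [norm_trLin, one_mul])

lemma tr_apply (g : Λ) (f : l2 Λ) (x : Λ) : (tr g f : Λ → ℂ) x = f (g⁻¹ * x) := rfl

variable (Λ) in
/-- the regular representation -/
def reg : Λ →* (l2 Λ →L[ℂ] l2 Λ) where
  toFun := tr
  map_one' := by
    ext f x
    simp [tr_apply]
  map_mul' g h := by
    ext f x
    rw [mul_apply_eq_comp, tr_apply, tr_apply, tr_apply, mul_inv_rev, mul_assoc]

lemma reg_apply (g : Λ) (f : l2 Λ) (x : Λ) : (reg Λ g f : Λ → ℂ) x = f (g⁻¹ * x) := rfl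

lemma star_reg (g : Λ) : star (reg Λ g) = reg Λ g⁻¹ := by
  rw [ContinuousLinearMap.star_eq_adjoint]
  symm
  rw [ContinuousLinearMap.eq_adjoint_iff]
  intro f h
  rw [lp.inner_eq_tsum, lp.inner_eq_tsum]
  simp only [reg_apply, inv_inv]
  rw [← (Equiv.mulLeft g).tsum_eq (fun i => ⟪f i, h (g⁻¹ * i)⟫_ℂ)]
  simp

/-- the regular representation of the group algebra -/
def regStar (Λ : Type) [Group Λ] : GA Λ →⋆ₐ[ℂ] (l2 Λ →L[ℂ] l2 Λ) := liftStar (reg Λ) star_reg

/-- the regular representation of `C*(Λ)` -/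
def regC (Λ : Type) [Group Λ] : GroupCStar Λ →⋆ₐ[ℂ] (l2 Λ →L[ℂ] l2 Λ) :=
  Envelope.lift (regStar Λ)

lemma regC_toC (a : GA Λ) : regC Λ (toC a) = regStar Λ a := Envelope.lift_incl _ a

lemma regC_gel (g : Λ) : regC Λ (toC (gel g)) = reg Λ g := by
  rw [regC_toC, regStar, liftStar_gel]

open Classical in
/-- the delta function at the identity -/
def del (Λ : Type) [Group Λ] : l2 Λ := lp.single 2 (1 : Λ) (1 : ℂ)

open Classical in
lemma del_apply (x : Λ) : (del Λ : Λ → ℂ) x = if x = 1 then 1 else 0 := by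
  rw [del]
  simp [lp.single_apply, Pi.single_apply]

open Classical in
lemma reg_del_apply (g x : Λ) : (reg Λ g (del Λ) : Λ → ℂ) x = if x = g then 1 else 0 := by
  rw [reg_apply, del_apply]
  congr 1
  rw [inv_mul_eq_one]
  exact propext eq_comm

/-- Group elements are distinct in `C*(Λ)`. -/
lemma toC_gel_injective : Function.Injective fun g : Λ => (toC (gel g) : GroupCStar Λ) := by
  intro g h hgh
  have h1 := congrArg (regC Λ) hgh
  simp only [regC_gel] at h1
  have h2 : (reg Λ g (del Λ) : Λ → ℂ) g = (reg Λ h (del Λ) : Λ → ℂ) g := by rw [h1]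
  rw [reg_del_apply, reg_del_apply, if_pos rfl] at h2
  by_contra hne
  rw [if_neg hne] at h2
  exact one_ne_zero h2

end Pool.Agent.W381.QG
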