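import Pool.Agent.W381.QG.Growth
import Pool.Agent.W381.QG.Reg

/-!
# The closed subgroup `G ⊂ U_N⁺` with trivial diagonal tori and exponential growth
-/

set_option linter.unusedSectionVars false
set_option linter.unusedSimpArgs false

noncomputable section

namespace Pool.Agent.W381.QG

open scoped TensorProduct Matrix

/-- index type of the generators of `Λ` -/
abbrev Idx : Type := alternatingGroup (Fin 5) ⊕ Fin 3

/-- the size of the fundamental corepresentation -/
def NN : ℕ := Fintype.card (Idx × (Fin 2 × Fin 2))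

/-- enumeration of the index set -/
def ee : Fin NN ≃ Idx × (Fin 2 × Fin 2) := (Fintype.equivFin _).symm

/-- The counterexample. -/
abbrev GG : ClosedSubgroup NN := KL.twisted gens closure_gens ee

/-- the fundamental corepresentation over the group algebra -/
def ww : Matrix (Fin NN) (Fin NN) (GA Lam) := (KL.big gens).submatrix ee ee

lemma isRep_ww : KL.IsRep ww := (KL.isRep_big gens).reindex ee

lemma gen_ww : Klein.Gen ww := by
  intro S hS hS'
  have hw : ∀ p q, KL.big gens p q ∈ S := by
    intro p q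
    have := hS (ee.symm p) (ee.symm q)
    simpa [ww] using this
  have hw' : ∀ p q, star (KL.big gens p q) ∈ S := by
    intro p q
    have := hS' (ee.symm p) (ee.symm q)
    simpa [ww] using this
  have h1 : ∀ g : Lam, gel g ∈ S ∧ gel g⁻¹ ∈ S := by
    intro g
    have hg : g ∈ Subgroup.closure (Set.range gens) := by rw [closure_gens]; trivial
    induction hg using Subgroup.closure_induction with
    | mem x hx =>
      obtain ⟨t, rfl⟩ := hx
      constructor
      · rw [KL.gel_eq]
        refine sum_mem fun i _ => sum_mem fun k _ => ?_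
        have := hw (t, (i, k)) (t, (0, 0))
        simpa [Klein.big] using this
      · rw [← star_gel, KL.gel_eq, star_sum]
        refine sum_mem fun i _ => ?_
        rw [star_sum]
        refine sum_mem fun k _ => ?_
        have := hw' (t, (i, k)) (t, (0, 0))
        simpa [Klein.big] using this
    | one => rw [inv_one, gel_one]; exact ⟨one_mem S, one_mem S⟩
    | mul x y _ _ hx hy =>
      rw [mul_inv_rev, ← gel_mul, ← gel_mul]
      exact ⟨mul_mem hx.1 hy.1, mul_mem hy.2 hx.2⟩
    | inv x _ hx => rw [inv_inv]; exact ⟨hx.2, hx.1⟩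
  rw [eq_top_iff]
  intro a _
  induction a using MonoidAlgebra.induction_linear with
  | zero => exact zero_mem S
  | add a b ha hb => exact add_mem (ha trivial) (hb trivial)
  | single g c => rw [single_eq_smul_gel]; exact S.smul_mem (h1 g).1 c

lemma conj_eq (Q : Matrix (Fin NN) (Fin NN) ℂ) (i j : Fin NN) :
    GG.conj Q i j = toC (Klein.vA ww Q i j) := by
  have h : (Klein.vA ww Q).map (toC : GA Lam →⋆ₐ[ℂ] GroupCStar Lam) = GG.conj Q := by
    rw [Klein.vA, Matrix.map_mul, Matrix.map_mul]
    have h1 : ∀ T : Matrix (Fin NN) (Fin NN) ℂ,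
        (Klein.scM (GA Lam) T).map (toC : GA Lam →⋆ₐ[ℂ] GroupCStar Lam) = GG.sc T := by
      intro T
      ext i j
      simp only [Klein.scM, ClosedSubgroup.sc, Matrix.map_apply]
      exact AlgHomClass.commutes (toC : GA Lam →⋆ₐ[ℂ] GroupCStar Lam) (T i j)
    rw [h1, h1]
    rfl
  rw [← h]
  rfl

/-- In every diagonal torus the generators are trivial. -/
lemma toTorus_diag {Q : Matrix (Fin NN) (Fin NN) ℂ} (hQ : Q ∈ Matrix.unitaryGroup (Fin NN) ℂ)
    (i : Fin NN) : GG.toTorus Q (GG.conj Q i i) = 1 := by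
  have hQ1 : Qᴴ * Q = 1 := (Matrix.mem_unitaryGroup_iff').1 hQ
  have hQ2 : Q * Qᴴ = 1 := (Matrix.mem_unitaryGroup_iff).1 hQ
  have h := KL.diag_eq_one isRep_ww hQ1 hQ2 gen_ww rho rfl rfl norm_gen
    ((GG.toTorus Q).comp ((toC : GA Lam →⋆ₐ[ℂ] GroupCStar Lam) : GA Lam →+* GroupCStar Lam))
    (by
      intro i j hij
      have h2 := GG.toTorus_off (Q := Q) hij
      rw [conj_eq] at h2
      exact h2) i
  rw [conj_eq]
  exact h

lemma torusGens_subset {Q : Matrix (Fin NN) (Fin NN) ℂ}
    (hQ : Q ∈ Matrix.unitaryGroup (Fin NN) ℂ) : GG.torusGens Q ⊆ {1} := by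
  rintro g ⟨i, hi⟩
  rw [Set.mem_singleton_iff]
  apply Units.ext
  rw [hi, toTorus_diag hQ, Units.val_one]

/-- Every diagonal torus is trivial. -/
theorem torus_eq_bot {Q : Matrix (Fin NN) (Fin NN) ℂ}
    (hQ : Q ∈ Matrix.unitaryGroup (Fin NN) ℂ) : GG.TorusTrivial Q := by
  rw [ClosedSubgroup.TorusTrivial, ClosedSubgroup.torus, Subgroup.closure_eq_bot_iff]
  exact torusGens_subset hQ

theorem torus_poly {Q : Matrix (Fin NN) (Fin NN) ℂ}
    (hQ : Q ∈ Matrix.unitaryGroup (Fin NN) ℂ) : GG.TorusPolynomialGrowth Q := by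
  refine ⟨1, 0, fun k _ => ?_⟩
  have h : wordBall (GG.torusGens Q) k ⊆ {1} := by
    rintro x ⟨l, -, hl, rfl⟩
    rw [Set.mem_singleton_iff]
    apply List.prod_eq_one
    intro s hs
    rcases hl s hs with h | h
    · exact torusGens_subset hQ h
    · exact inv_eq_one.1 (torusGens_subset hQ h)
  refine (Set.encard_le_encard h).trans ?_
  simp

/-- Exponential growth of the discrete dual. -/
theorem two_pow_le_b (k : ℕ) : (2 : ℕ∞) ^ k ≤ GG.b k := by
  let φ : Fin (2 ^ k) ≃ (Fin k → Bool) :=
    (Fintype.equivFinOfCardEq (by simp)).symm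
  let tr : Bool → Idx := fun b => if b then .inr 1 else .inr 2
  have hw : ∀ l : List Bool, ((l.map tr).map gens).prod = word l := by
    intro l
    rw [word, List.map_map]
    congr 1
    refine List.map_congr_left fun b _ => ?_
    cases b <;> rfl
  have hcx : ∀ l : List Bool, word l * KL.x = KL.x * word l := by
    intro l
    induction l with
    | nil => simp [word]
    | cons b l ih =>
      have h : word (b :: l) = letter b * word l := by simp [word]
      rw [h, mul_assoc, ih, ← mul_assoc, letter_comm_x, mul_assoc]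
  have hcy : ∀ l : List Bool, word l * KL.y = KL.y * word l := by
    intro l
    induction l with
    | nil => simp [word]
    | cons b l ih =>
      have h : word (b :: l) = letter b * word l := by simp [word]
      rw [h, mul_assoc, ih, ← mul_assoc, letter_comm_y, mul_assoc]
  have h := KL.card_le_b gens closure_gens ee (k := k) (m := 2 ^ k)
    (fun i => (List.ofFn (φ i)).map tr) (by intro i; simp)
    (by intro i; rw [hw]; exact hcx _) (by intro i; rw [hw]; exact hcy _)
    (by
      intro i j hij
      rw [hw, hw] at hij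
      have h1 := toC_gel_injective hij
      have h2 := word_inj _ _ h1
      exact φ.injective (List.ofFn_injective h2))
  simpa using h

/-- The discrete dual does not have polynomial growth. -/
theorem not_dualPolynomialGrowth : ¬ GG.DualPolynomialGrowth := by
  rintro ⟨C, d, h⟩
  have h1 : ∀ k : ℕ, 1 ≤ k → (2 : ℝ) ^ k ≤ C * (k : ℝ) ^ d := by
    intro k hk
    have h2 := (two_pow_le_b k).trans (h k hk)
    have h3 : ((2 ^ k : ℕ) : ℕ∞) ≤ ((C * k ^ d : ℕ) : ℕ∞) := by
      push_cast at h2 ⊢
      exact h2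
    have h4 : 2 ^ k ≤ C * k ^ d := by exact_mod_cast h3
    exact_mod_cast h4
  have h5 := tendsto_pow_const_div_const_pow_of_one_lt d (r := (2 : ℝ)) (by norm_num)
  have h6 : ∀ᶠ k : ℕ in Filter.atTop, (k : ℝ) ^ d / 2 ^ k < 1 / (C + 1) := by
    have hpos : (0 : ℝ) < 1 / (C + 1) := by positivity
    exact (h5.eventually (gt_mem_nhds hpos))
  obtain ⟨k, hk1, hk2⟩ := (h6.and (Filter.eventually_ge_atTop 1)).exists
  have h7 := h1 k hk2
  have h8 : (0 : ℝ) < 2 ^ k := by positivity
  rw [div_lt_div_iff₀ h8 (by positivity)] at hk1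
  have h9 : (0 : ℝ) ≤ (k : ℝ) ^ d := by positivity
  nlinarith

/-! ### `C(G)` is the full C*-algebra -/

section full

open Pool.Agent.W381.QG.ClosedSubgroup

variable {N : ℕ}

/-- the evaluation as an algebra homomorphism -/
def evalHom {D : Type} [CStarAlgebra D] (w : Matrix (Fin N) (Fin N) D) :
    FreeAlgebra ℂ (Bool × Fin N × Fin N) →ₐ[ℂ] D :=
  FreeAlgebra.lift ℂ (fun x => if x.1 then star (w x.2.1 x.2.2) else w x.2.1 x.2.2)

lemma evalPoly_eq {D : Type} [CStarAlgebra D] (w : Matrix (Fin N) (Fin N) D)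
    (p : FreeAlgebra ℂ (Bool × Fin N × Fin N)) : evalPoly w p = evalHom w p := rfl

lemma evalHom_iota {D : Type} [CStarAlgebra D] (w : Matrix (Fin N) (Fin N) D)
    (x : Bool × Fin N × Fin N) :
    evalHom w (FreeAlgebra.ι ℂ x) = if x.1 then star (w x.2.1 x.2.2) else w x.2.1 x.2.2 := by
  rw [evalHom, FreeAlgebra.lift_ι_apply]

/-- Every noncommutative polynomial has an adjoint. -/
lemma exists_adjoint (p : FreeAlgebra ℂ (Bool × Fin N × Fin N)) :
    ∃ q, ∀ (D : Type) [CStarAlgebra D] (w : Matrix (Fin N) (Fin N) D),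
      evalHom w q = star (evalHom w p) := by
  induction p using FreeAlgebra.induction with
  | grade0 c =>
    refine ⟨algebraMap ℂ _ (star c), fun D _ w => ?_⟩
    rw [AlgHom.commutes, AlgHom.commutes, algebraMap_star_comm]
  | grade1 x =>
    refine ⟨FreeAlgebra.ι ℂ (!x.1, x.2), fun D _ w => ?_⟩
    rw [evalHom_iota, evalHom_iota]
    rcases x with ⟨b, i, j⟩
    cases b <;> simp
  | add p q hp hq =>
    obtain ⟨p', hp'⟩ := hp
    obtain ⟨q', hq'⟩ := hq
    exact ⟨p' + q', fun D _ w => by rw [map_add, map_add, star_add, hp', hq']⟩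
  | mul p q hp hq =>
    obtain ⟨p', hp'⟩ := hp
    obtain ⟨q', hq'⟩ := hq
    exact ⟨q' * p', fun D _ w => by rw [map_mul, map_mul, star_mul, hp', hq']⟩

/-- the polynomials in the `u_ij` form a `*`-subalgebra -/
def polyRange {D : Type} [CStarAlgebra D] (w : Matrix (Fin N) (Fin N) D) : StarSubalgebra ℂ D where
  toSubalgebra := (evalHom w).range
  star_mem' := by
    rintro _ ⟨p, rfl⟩
    obtain ⟨q, hq⟩ := exists_adjoint p
    exact ⟨q, hq D w⟩

lemma exists_poly (a : GA Lam) : ∃ p, evalHom (GG.u) p = (toC a : GroupCStar Lam) := by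
  have h := KL.mem_of_gens gens closure_gens (polyRange (D := GroupCStar Lam) GG.u) ?_ a
  · exact h
  · intro p q
    refine ⟨FreeAlgebra.ι ℂ (false, ee.symm p, ee.symm q), ?_⟩
    refine (evalHom_iota _ _).trans ?_
    simp

/-- `C(G) = C_max(G)`. -/
theorem isFull : GG.IsFull := by
  intro D _ w hw
  have hw' : ∀ p q, evalHom (D := GroupCStar Lam) GG.u p = evalHom (D := GroupCStar Lam) GG.u q →
      evalHom w p = evalHom w q := by
    intro p q hpq
    have h1 := hw (p - q) (by
      refine (map_sub (evalHom (D := GroupCStar Lam) GG.u) p q).trans ?_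
      rw [hpq, sub_self])
    rw [evalPoly_eq, map_sub] at h1
    exact sub_eq_zero.1 h1
  choose P hP using exists_poly
  let F : Lam →* D :=
    { toFun := fun g => evalHom w (P (gel g))
      map_one' := by
        rw [← map_one (evalHom w)]
        refine hw' _ _ ?_
        rw [hP, gel_one, map_one, map_one]
      map_mul' := fun g h => by
        rw [← map_mul]
        refine hw' _ _ ?_
        rw [map_mul, hP, hP, hP, ← gel_mul, map_mul] }
  have hF : ∀ g, star (F g) = F g⁻¹ := by
    intro g
    obtain ⟨q, hq⟩ := exists_adjoint (P (gel g))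
    show star (evalHom w (P (gel g))) = evalHom w (P (gel g⁻¹))
    rw [← hq D w]
    refine hw' _ _ ?_
    refine (hq (GroupCStar Lam) GG.u).trans ?_
    rw [hP, hP, ← StarHomClass.map_star, star_gel]
  have key : ∀ a : GA Lam, liftStar F hF a = evalHom w (P a) := by
    intro a
    induction a using MonoidAlgebra.induction_linear with
    | zero =>
      rw [map_zero, ← map_zero (evalHom w)]
      refine hw' _ _ ?_
      rw [hP, map_zero, map_zero]
    | add a b ha hb =>
      rw [map_add, ha, hb, ← map_add]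
      refine hw' _ _ ?_
      rw [map_add, hP, hP, hP, map_add]
    | single g c =>
      rw [single_eq_smul_gel, map_smul, liftStar_gel]
      show c • evalHom w (P (gel g)) = _
      rw [← map_smul]
      refine hw' _ _ ?_
      rw [map_smul, hP, hP, map_smul]
  refine ⟨Envelope.lift (liftStar F hF), fun i j => ?_⟩
  have h1 : (GG.u i j : GroupCStar Lam) = toC (ww i j) := rfl
  refine (Envelope.lift_incl (liftStar F hF) (ww i j)).trans ?_
  rw [key]
  have h2 : evalHom w (P (ww i j)) = evalHom w (FreeAlgebra.ι ℂ (false, i, j)) := by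
    refine hw' _ _ ?_
    rw [hP]
    refine Eq.trans ?_ (evalHom_iota _ _).symm
    simp [ww]
  rw [h2, evalHom_iota]
  simp

end full

end Pool.Agent.W381.QG
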