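import Pool.Agent.W381.QG.Env

/-!
# The `*`-algebra structure of a complex group algebra
-/

set_option linter.unusedSectionVars false

noncomputable section

namespace Pool.Agent.W381.QG

open scoped TensorProduct

/-- The group algebra `ℂ[Λ]`. -/
abbrev GA (Λ : Type) [Group Λ] : Type := MonoidAlgebra ℂ Λ

variable {Λ : Type} [Group Λ]

/-- The group element `g` as an element of `ℂ[Λ]`. -/
abbrev gel (g : Λ) : GA Λ := MonoidAlgebra.single g 1

lemma gel_mul (g h : Λ) : gel g * gel h = gel (g * h) := by
  simp [gel, MonoidAlgebra.single_mul_single]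

lemma gel_one : gel (1 : Λ) = 1 := rfl

lemma single_eq_smul_gel (g : Λ) (c : ℂ) : (MonoidAlgebra.single g c : GA Λ) = c • gel g := by
  simp [gel, MonoidAlgebra.smul_single]

/-- the star operation on the group algebra -/
instance instStarGA : Star (GA Λ) :=
  ⟨fun a => MonoidAlgebra.mapDomain (·⁻¹) (MonoidAlgebra.map (starRingEnd ℂ : ℂ →+ ℂ) a)⟩

lemma star_single (g : Λ) (c : ℂ) :
    star (MonoidAlgebra.single g c : GA Λ) = MonoidAlgebra.single g⁻¹ (starRingEnd ℂ c) := by
  show MonoidAlgebra.mapDomain (·⁻¹) (MonoidAlgebra.map (starRingEnd ℂ : ℂ →+ ℂ) _) = _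
  simp

lemma star_add_GA (a b : GA Λ) : star (a + b) = star a + star b := by
  show MonoidAlgebra.mapDomain (·⁻¹) (MonoidAlgebra.map (starRingEnd ℂ : ℂ →+ ℂ) _) =
    MonoidAlgebra.mapDomain (·⁻¹) (MonoidAlgebra.map (starRingEnd ℂ : ℂ →+ ℂ) _) +
    MonoidAlgebra.mapDomain (·⁻¹) (MonoidAlgebra.map (starRingEnd ℂ : ℂ →+ ℂ) _)
  rw [MonoidAlgebra.map_add, MonoidAlgebra.mapDomain_add]

lemma star_zero_GA : star (0 : GA Λ) = 0 := by
  show MonoidAlgebra.mapDomain (·⁻¹) (MonoidAlgebra.map (starRingEnd ℂ : ℂ →+ ℂ) _) = _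
  rw [MonoidAlgebra.map_zero, MonoidAlgebra.mapDomain_zero]

instance instStarRingGA : StarRing (GA Λ) where
  star_involutive a := by
    induction a using MonoidAlgebra.induction_linear with
    | zero => rw [star_zero_GA, star_zero_GA]
    | add a b ha hb => rw [star_add_GA, star_add_GA, ha, hb]
    | single g c => simp [star_single]
  star_mul a b := by
    induction a using MonoidAlgebra.induction_linear with
    | zero => rw [zero_mul, star_zero_GA, mul_zero]
    | add a a' ha ha' => rw [add_mul, star_add_GA, star_add_GA, mul_add, ha, ha']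
    | single g c =>
      induction b using MonoidAlgebra.induction_linear with
      | zero => rw [mul_zero, star_zero_GA, zero_mul]
      | add b b' hb hb' => rw [mul_add, star_add_GA, star_add_GA, add_mul, hb, hb']
      | single h d =>
        simp only [MonoidAlgebra.single_mul_single, star_single, mul_inv_rev, map_mul]
        rw [mul_comm (starRingEnd ℂ c)]
  star_add := star_add_GA

instance instStarModuleGA : StarModule ℂ (GA Λ) where
  star_smul c a := by
    induction a using MonoidAlgebra.induction_linear with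
    | zero => rw [smul_zero, star_zero, smul_zero]
    | add a b ha hb => rw [smul_add, star_add, star_add, smul_add, ha, hb]
    | single g d => simp [MonoidAlgebra.smul_single, star_single]

@[simp] lemma star_gel (g : Λ) : star (gel g) = gel g⁻¹ := by
  simp [gel, star_single]

/-- A `*`-compatible monoid homomorphism to a `*`-algebra extends to the group algebra. -/
def liftStar {D : Type*} [Ring D] [StarRing D] [Algebra ℂ D] [StarModule ℂ D] (f : Λ →* D)
    (hf : ∀ g, star (f g) = f g⁻¹) : GA Λ →⋆ₐ[ℂ] D :=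
  { MonoidAlgebra.lift ℂ D Λ f with
    map_star' := fun a => by
      show MonoidAlgebra.lift ℂ D Λ f (star a) = star (MonoidAlgebra.lift ℂ D Λ f a)
      induction a using MonoidAlgebra.induction_linear with
      | zero => rw [star_zero, map_zero, star_zero]
      | add a b ha hb => rw [star_add, map_add, map_add, star_add, ha, hb]
      | single g c =>
        rw [star_single, MonoidAlgebra.lift_single, MonoidAlgebra.lift_single, star_smul, hf]
        rfl }

@[simp] lemma liftStar_gel {D : Type*} [Ring D] [StarRing D] [Algebra ℂ D] [StarModule ℂ D]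
    (f : Λ →* D) (hf : ∀ g, star (f g) = f g⁻¹) (g : Λ) : liftStar f hf (gel g) = f g := by
  show MonoidAlgebra.lift ℂ D Λ f _ = _
  rw [MonoidAlgebra.lift_single, one_smul]

/-- Every C*-seminorm of the group algebra is bounded by the `ℓ¹`-norm. -/
lemma bdd_GA : CStarSeminorm.Bdd (GA Λ) := by
  intro a
  induction a using MonoidAlgebra.induction_linear with
  | zero => exact ⟨0, by rintro _ ⟨p, rfl⟩; exact (map_zero p.toSeminorm).le⟩
  | single g c =>
    refine ⟨‖c‖, ?_⟩
    rintro _ ⟨p, rfl⟩
    show p _ ≤ _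
    rw [single_eq_smul_gel]
    have h1 : p (gel g) ≤ 1 := by
      have h2 : p (1 : GA Λ) ≤ 1 := by
        have h3 := p.cstar (1 : GA Λ)
        rw [star_one, mul_one] at h3
        nlinarith [p.nonneg (1 : GA Λ)]
      have h4 := p.cstar (gel g)
      rw [star_gel, gel_mul, inv_mul_cancel, gel_one] at h4
      nlinarith [p.nonneg (gel g)]
    calc p (c • gel g) = ‖c‖ * p (gel g) := map_smul_eq_mul p.toSeminorm c _
      _ ≤ ‖c‖ * 1 := mul_le_mul_of_nonneg_left h1 (norm_nonneg c)
      _ = ‖c‖ := mul_one _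
  | add s t hs ht =>
    obtain ⟨M, hM⟩ := hs
    obtain ⟨M', hM'⟩ := ht
    exact ⟨M + M', by
      rintro _ ⟨p, rfl⟩
      exact (map_add_le_add p.toSeminorm _ _).trans
        (add_le_add (hM ⟨p, rfl⟩) (hM' ⟨p, rfl⟩))⟩

variable (Λ) in
/-- The full group C*-algebra `C*(Λ)`. -/
abbrev GroupCStar : Type := Envelope (GA Λ) bdd_GA

/-- The canonical map `ℂ[Λ] → C*(Λ)`. -/
def toC : GA Λ →⋆ₐ[ℂ] GroupCStar Λ := (CStarSeminorm.max bdd_GA).incl

lemma denseRange_toC : DenseRange (toC : GA Λ → GroupCStar Λ) :=
  (CStarSeminorm.max bdd_GA).denseRange_incl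

end Pool.Agent.W381.QG
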