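import Pool.Agent.W381.QG.Grp

/-!
# Growth of the twisted dual
-/

set_option linter.unusedSectionVars false
set_option linter.unusedSimpArgs false

noncomputable section

namespace Pool.Agent.W381.QG

open scoped TensorProduct Matrix

namespace ClosedSubgroup

variable {N : ℕ} (G : ClosedSubgroup N)

section

variable {l m n : Type} [Fintype l] [DecidableEq l] [Fintype m] [DecidableEq m] [Fintype n]
  [DecidableEq n]

lemma sc_mul_apply (v : Matrix n n G.C) (T : Matrix m n ℂ) (p : m) (q : n) :
    (G.sc T * v) p q = ∑ i, T p i • v i q := by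
  rw [Matrix.mul_apply]
  refine Finset.sum_congr rfl fun i _ => ?_
  rw [sc, Matrix.map_apply, Algebra.smul_def]

lemma mul_sc_apply (w : Matrix m m G.C) (T : Matrix m n ℂ) (p : m) (q : n) :
    (w * G.sc T) p q = ∑ r, T r q • w p r := by
  rw [Matrix.mul_apply]
  refine Finset.sum_congr rfl fun i _ => ?_
  rw [sc, Matrix.map_apply, ← Algebra.commutes, Algebra.smul_def]

lemma intertwines_iff (v : Matrix n n G.C) (w : Matrix m m G.C) (T : Matrix m n ℂ) :
    G.Intertwines v w T ↔ ∀ p q, ∑ i, T p i • v i q = ∑ r, T r q • w p r := by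
  rw [Intertwines]
  constructor
  · intro h p q
    have := congrFun (congrFun h p) q
    rwa [sc_mul_apply, mul_sc_apply] at this
  · intro h
    refine Matrix.ext fun p q => ?_
    rw [sc_mul_apply, mul_sc_apply]
    exact h p q

/-- transitivity -/
lemma Contained.trans {u : Matrix l l G.C} {v : Matrix m m G.C} {w : Matrix n n G.C}
    (h1 : G.Contained u v) (h2 : G.Contained v w) : G.Contained u w := by
  obtain ⟨S, hS, hS'⟩ := h1
  obtain ⟨T, hT, hT'⟩ := h2
  refine ⟨T * S, ?_, ?_⟩
  · rw [Matrix.conjTranspose_mul]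
    calc Sᴴ * Tᴴ * (T * S) = Sᴴ * ((Tᴴ * T) * S) := by simp only [Matrix.mul_assoc]
      _ = 1 := by rw [hT, Matrix.one_mul, hS]
  · rw [Intertwines] at *
    rw [sc_mul, Matrix.mul_assoc, hS', ← Matrix.mul_assoc, hT', Matrix.mul_assoc]

/-- The tensor product of two corepresentations. -/
def tens (v : Matrix m m G.C) (w : Matrix n n G.C) : Matrix (m × n) (m × n) G.C :=
  fun p q => v p.1 q.1 * w p.2 q.2

lemma power_cons (w : Matrix n n G.C) (k : ℕ) (x y : n) (f g : Fin k → n) :
    G.power w (k + 1) (Fin.cons x f) (Fin.cons y g) = w x y * G.power w k f g := by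
  simp [power, List.ofFn_succ]

omit [Fintype n] [DecidableEq m] in
lemma isom_iff (T : Matrix m n ℂ) :
    Tᴴ * T = 1 ↔ ∀ i j, ∑ p, star (T p i) * T p j = if i = j then 1 else 0 := by
  constructor
  · intro h i j
    have := congrFun (congrFun h i) j
    rw [Matrix.mul_apply, Matrix.one_apply] at this
    exact this
  · intro h
    refine Matrix.ext fun i j => ?_
    rw [Matrix.mul_apply, Matrix.one_apply]
    exact h i j

lemma contained_tens {v : Matrix m m G.C} {w : Matrix n n G.C} {b : Matrix l l G.C} {k : ℕ}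
    (h1 : G.Contained v b) (h2 : G.Contained w (G.power b k)) :
    G.Contained (G.tens v w) (G.power b (k + 1)) := by
  obtain ⟨S, hS, hS'⟩ := h1
  obtain ⟨T, hT, hT'⟩ := h2
  rw [isom_iff] at hS hT
  rw [intertwines_iff] at hS' hT'
  refine ⟨Matrix.of fun f p => S (f 0) p.1 * T (Fin.tail f) p.2, (isom_iff _).2 ?_,
    (G.intertwines_iff _ _ _).2 ?_⟩
  · rintro ⟨i, j⟩ ⟨i', j'⟩
    simp only [Matrix.of_apply]
    rw [← (Fin.consEquiv (fun _ => l)).sum_comp, Fintype.sum_prod_type]
    have h3 : ∀ x : l, ∀ f : Fin k → l,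
        star (S ((Fin.consEquiv fun _ => l) (x, f) 0) i *
          T (Fin.tail ((Fin.consEquiv fun _ => l) (x, f))) j) *
        (S ((Fin.consEquiv fun _ => l) (x, f) 0) i' *
          T (Fin.tail ((Fin.consEquiv fun _ => l) (x, f))) j') =
        (star (S x i) * S x i') * (star (T f j) * T f j') := by
      intro x f
      have e1 : (Fin.consEquiv fun _ => l) (x, f) 0 = x := rfl
      have e2 : Fin.tail ((Fin.consEquiv fun _ => l) (x, f)) = f := by
        ext i; rfl
      rw [e1, e2, star_mul']
      ring
    simp only [h3]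
    have h4 : ∀ x : l, ∑ f : Fin k → l, (star (S x i) * S x i') * (star (T f j) * T f j') =
        (star (S x i) * S x i') * (if j = j' then 1 else 0) := by
      intro x
      rw [← Finset.mul_sum, hT]
    simp only [h4]
    rw [← Finset.sum_mul, hS]
    by_cases a1 : i = i' <;> by_cases a2 : j = j' <;> simp [a1, a2]
  · rintro f ⟨i', j'⟩
    simp only [Matrix.of_apply]
    obtain ⟨⟨x, f'⟩, rfl⟩ := (Fin.consEquiv (fun _ => l)).surjective f
    have e1 : (Fin.consEquiv fun _ => l) (x, f') 0 = x := rfl
    have e2 : Fin.tail ((Fin.consEquiv fun _ => l) (x, f')) = f' := by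
      ext i; rfl
    rw [e1, e2, Fintype.sum_prod_type]
    rw [← (Fin.consEquiv (fun _ => l)).sum_comp, Fintype.sum_prod_type]
    have h5 : ∀ y : l, ∀ g : Fin k → l,
        (S ((Fin.consEquiv fun _ => l) (y, g) 0) i' *
          T (Fin.tail ((Fin.consEquiv fun _ => l) (y, g))) j') •
        G.power b (k + 1) ((Fin.consEquiv fun _ => l) (x, f'))
          ((Fin.consEquiv fun _ => l) (y, g)) =
        (S y i' • b x y) * (T g j' • G.power b k f' g) := by
      intro y g
      have e3 : (Fin.consEquiv fun _ => l) (y, g) 0 = y := rfl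
      have e4 : Fin.tail ((Fin.consEquiv fun _ => l) (y, g)) = g := by
        ext i; rfl
      rw [e3, e4, smul_mul_smul_comm]
      congr 1
      exact G.power_cons b k x y f' g
    simp only [h5]
    simp only [← Finset.mul_sum]
    rw [← Finset.sum_mul, ← hS', ← hT', Finset.sum_mul]
    refine Finset.sum_congr rfl fun i _ => ?_
    rw [Finset.mul_sum]
    refine Finset.sum_congr rfl fun j _ => ?_
    rw [smul_mul_smul_comm]
    rfl

end

end ClosedSubgroup

namespace Klein

variable {Λ : Type} [Group Λ] (K : Klein Λ)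
variable {ι : Type} [Fintype ι] [DecidableEq ι] (s : ι → Λ)
    (hs : Subgroup.closure (Set.range s) = ⊤) {N : ℕ} (e : Fin N ≃ ι × (Fin 2 × Fin 2))

/-- `U g` over `C*(Λ)` -/
def UC (g : Λ) : Matrix (Fin 2 × Fin 2) (Fin 2 × Fin 2) (GroupCStar Λ) :=
  fun i j => toC (K.U g i j)

/-- `U (s t)` is contained in `1 ⊕ u ⊕ ū`. -/
lemma UC_contained_base (t : ι) :
    (K.twisted s hs e).Contained (K.UC (s t)) (K.twisted s hs e).base := by
  refine ⟨Matrix.of fun x a => match x with
    | .inr (.inl i) => if e i = (t, a) then 1 else 0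
    | _ => 0, (ClosedSubgroup.isom_iff _).2 ?_, ((K.twisted s hs e).intertwines_iff _ _ _).2 ?_⟩
  · intro a b
    simp only [Matrix.of_apply, Fintype.sum_sum_type]
    simp only [mul_zero, Finset.sum_const_zero, zero_add, add_zero]
    rw [← e.symm.sum_comp]
    simp only [Equiv.apply_symm_apply]
    rw [Finset.sum_eq_single (t, a)]
    · simp
    · intro z _ hz
      simp [hz]
    · simp
  · intro x q
    simp only [Matrix.of_apply, Fintype.sum_sum_type]
    simp only [zero_smul, Finset.sum_const_zero, zero_add, add_zero]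
    rcases x with x | x | x
    · simp [ClosedSubgroup.base]
    · rw [← e.symm.sum_comp]
      simp only [Equiv.apply_symm_apply]
      rw [Finset.sum_eq_single (t, q) (fun z _ hz => by simp [hz]) (by simp)]
      simp only [if_true, one_smul]
      simp only [ClosedSubgroup.base, Matrix.fromBlocks_apply₂₂, Matrix.fromBlocks_apply₁₁]
      simp only [Matrix.map_apply, Matrix.submatrix_apply, Equiv.apply_symm_apply, big]
      by_cases h : (e x).1 = t
      · rw [if_pos h, Finset.sum_eq_single (e x).2]
        · have h' : e x = (t, (e x).2) := Prod.ext h rfl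
          rw [if_pos h', one_smul, h]; rfl
        · intro b _ hb
          rw [if_neg (fun h' => hb (congrArg Prod.snd h').symm), zero_smul]
        · simp
      · rw [if_neg h, map_zero]
        refine Finset.sum_eq_zero fun b _ => ?_
        rw [if_neg (fun h' => h (congrArg Prod.fst h')), zero_smul]
    · simp [ClosedSubgroup.base]

/-- the normalising factor -/
def rt : ℂ := ((Real.sqrt 2)⁻¹ : ℝ)

lemma rt_sq : star rt * rt = 1 / 2 := by
  have h : star rt = rt := Complex.conj_ofReal _
  rw [h, rt, ← Complex.ofReal_mul, ← mul_inv, Real.mul_self_sqrt (by norm_num)]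
  push_cast
  norm_num

lemma rt_sq' : (starRingEnd ℂ) rt * rt = 1 / 2 := rt_sq

lemma UC_contained_tens (g h : Λ) :
    (K.twisted s hs e).Contained (K.UC (g * h))
      ((K.twisted s hs e).tens (K.UC g) (K.UC h)) := by
  refine ⟨Matrix.of fun p q => if p.1.1 = q.1 ∧ p.1.2 = p.2.1 ∧ p.2.2 = q.2 then rt else 0,
    (ClosedSubgroup.isom_iff _).2 ?_, ((K.twisted s hs e).intertwines_iff _ _ _).2 ?_⟩
  · rintro ⟨a, b⟩ ⟨a', b'⟩
    simp only [Matrix.of_apply, Fintype.sum_prod_type, Fin.sum_univ_two]
    fin_cases a <;> fin_cases b <;> fin_cases a' <;> fin_cases b' <;> simp [rt_sq'] <;> norm_num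
  · rintro ⟨⟨a, a'⟩, ⟨b, b'⟩⟩ ⟨l, l'⟩
    simp only [Matrix.of_apply]
    -- left-hand side
    have hL : ∑ i : Fin 2 × Fin 2, (if a = i.1 ∧ a' = b ∧ b' = i.2 then rt else 0) •
        K.UC (g * h) i (l, l') = (if a' = b then rt else 0) • K.UC (g * h) (a, b') (l, l') := by
      rw [Finset.sum_eq_single (a, b')]
      · simp
      · rintro ⟨i, j⟩ _ hij
        rw [if_neg, zero_smul]
        rintro ⟨h1, -, h2⟩
        exact hij (by rw [h1, h2])
      · simp
    rw [hL, Fintype.sum_prod_type]
    have hR : ∑ x : Fin 2 × Fin 2, ∑ y : Fin 2 × Fin 2,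
        (if x.1 = l ∧ x.2 = y.1 ∧ y.2 = l' then rt else 0) •
          (K.twisted s hs e).tens (K.UC g) (K.UC h) ((a, a'), (b, b')) (x, y) =
        ∑ c : Fin 2, rt • (K.UC g (a, a') (l, c) * K.UC h (b, b') (c, l')) := by
      rw [Fintype.sum_prod_type]
      rw [Finset.sum_eq_single l]
      · refine Finset.sum_congr rfl fun c _ => ?_
        rw [Finset.sum_eq_single (c, l')]
        · simp [ClosedSubgroup.tens]
        · rintro ⟨i, j⟩ _ hij
          rw [if_neg, zero_smul]
          rintro ⟨-, h1, h2⟩
          simp only at h1 h2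
          exact hij (by rw [h1, h2])
        · simp
      · intro x _ hx
        refine Finset.sum_eq_zero fun c _ => Finset.sum_eq_zero fun y _ => ?_
        rw [if_neg, zero_smul]
        rintro ⟨h1, -⟩
        exact hx h1
      · simp
    rw [hR, ← Finset.smul_sum]
    have hA : ∑ c : Fin 2, K.U g (a, a') (l, c) * K.U h (b, b') (c, l') =
        if a' = b then K.U (g * h) (a, b') (l, l') else 0 := by
      have h1 : ∀ c : Fin 2, K.U g (a, a') (l, c) * K.U h (b, b') (c, l') =
          K.X a l * gel g * (K.X a' c * K.X b c) * gel h * K.X b' l' := by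
        intro c; simp only [U, mul_assoc]
      simp only [h1]
      rw [← Finset.sum_mul, ← Finset.sum_mul, ← Finset.mul_sum, X_row]
      split_ifs
      · rw [mul_one, mul_assoc (K.X a l), gel_mul]; rfl
      · simp
    have hB : ∑ c : Fin 2, K.UC g (a, a') (l, c) * K.UC h (b, b') (c, l') =
        toC (if a' = b then K.U (g * h) (a, b') (l, l') else 0) := by
      rw [← hA, map_sum]
      simp only [map_mul]
      rfl
    rw [hB]
    split_ifs
    · rfl
    · simp

/-- the 1-dimensional corepresentation given by a group element -/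
def one1 (g : Λ) : Matrix (Fin 1) (Fin 1) (GroupCStar Λ) := fun _ _ => toC (gel g)

lemma X_comm_gel {g : Λ} (hx : g * K.x = K.x * g) (hy : g * K.y = K.y * g) (i j : Fin 2) :
    gel g * K.X i j = K.X i j * gel g := by
  have ha : gel g * K.a = K.a * gel g := by rw [a, gel_mul, gel_mul, hx]
  have hb : gel g * K.b = K.b * gel g := by rw [b, gel_mul, gel_mul, hy]
  have hab : gel g * (K.a * K.b) = K.a * K.b * gel g := by
    rw [← mul_assoc, ha, mul_assoc, hb, mul_assoc]
  fin_cases i <;> fin_cases j <;>
  simp only [Fin.zero_eta, Fin.mk_one, X00, X01, X10, X11, smul_mul_assoc, mul_smul_comm,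
    mul_add, add_mul, mul_sub, sub_mul, mul_one, one_mul, ha, hb, hab]

lemma one1_contained_UC {g : Λ} (hx : g * K.x = K.x * g) (hy : g * K.y = K.y * g) :
    (K.twisted s hs e).Contained (one1 g) (K.UC g) := by
  refine ⟨Matrix.of fun p _ => if p.1 = p.2 then rt else 0,
    (ClosedSubgroup.isom_iff _).2 ?_, ((K.twisted s hs e).intertwines_iff _ _ _).2 ?_⟩
  · intro i j
    simp only [Matrix.of_apply, Fintype.sum_prod_type, Fin.sum_univ_two]
    rw [Subsingleton.elim i j]
    simp [rt_sq']
    norm_num
  · rintro ⟨a, a'⟩ q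
    simp only [Matrix.of_apply, Finset.univ_unique, Finset.sum_singleton]
    rw [Fintype.sum_prod_type]
    have h1 : ∀ c : Fin 2, ∑ d : Fin 2, (if c = d then rt else 0) • K.UC g (a, a') (c, d) =
        rt • toC (gel g * (K.X a c * K.X a' c)) := by
      intro c
      rw [Finset.sum_eq_single c]
      · rw [if_pos rfl]
        congr 1
        show toC (K.X a c * gel g * K.X a' c) = _
        rw [← K.X_comm_gel hx hy, mul_assoc]
      · intro d _ hd
        rw [if_neg (Ne.symm hd), zero_smul]
      · simp
    simp only [h1]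
    rw [← Finset.smul_sum, ← map_sum, ← Finset.mul_sum, X_row]
    split_ifs
    · rw [mul_one]; rfl
    · simp

/-- A product of `k + 1` generators is contained in the `(k+1)`-st power. -/
lemma UC_contained_power (t : ι) (l : List ι) :
    (K.twisted s hs e).Contained (K.UC ((t :: l).map s).prod)
      ((K.twisted s hs e).power (K.twisted s hs e).base (t :: l).length) := by
  induction l generalizing t with
  | nil =>
    have h0 : (K.twisted s hs e).Contained (K.UC (s t))
        ((K.twisted s hs e).power (K.twisted s hs e).base 1) := by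
      refine ClosedSubgroup.Contained.trans _ (K.UC_contained_base s hs e t) ?_
      refine ⟨Matrix.of fun f x => if f 0 = x then 1 else 0,
        (ClosedSubgroup.isom_iff _).2 ?_, ((K.twisted s hs e).intertwines_iff _ _ _).2 ?_⟩
      · intro i j
        simp only [Matrix.of_apply]
        rw [← (Equiv.funUnique (Fin 1) _).symm.sum_comp]
        simp [Finset.sum_ite_eq, eq_comm]
      · intro f q
        simp only [Matrix.of_apply]
        rw [← (Equiv.funUnique (Fin 1) _).symm.sum_comp]
        simp [ClosedSubgroup.power, Finset.sum_ite_eq]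
    simpa using h0
  | cons t' l ih =>
    have h1 := (K.twisted s hs e).contained_tens (K.UC_contained_base s hs e t) (ih t')
    have h2 := K.UC_contained_tens s hs e (s t) ((t' :: l).map s).prod
    have h3 := ClosedSubgroup.Contained.trans _ h2 h1
    simpa using h3

lemma one1_isCorep {g : Λ} (hx : g * K.x = K.x * g) (hy : g * K.y = K.y * g) :
    (K.twisted s hs e).IsCorep (one1 g) := by
  have hJ : K.DeltaJ (gel g) = gel g ⊗ₜ[ℂ] gel g := by
    have ha : gel g * K.a = K.a * gel g := by rw [a, gel_mul, gel_mul, hx]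
    have hb : gel g * K.b = K.b * gel g := by rw [b, gel_mul, gel_mul, hy]
    have hc : K.J * (gel g ⊗ₜ[ℂ] gel g) = (gel g ⊗ₜ[ℂ] gel g) * K.J := by
      simp only [J, smul_mul_assoc, mul_smul_comm, add_mul, mul_add, sub_mul, mul_sub,
        Algebra.TensorProduct.tmul_mul_tmul, one_mul, mul_one, ha, hb]
    rw [DeltaJ_apply, Delta_gel, hc, mul_assoc, JJ, mul_one]
  refine ⟨?_, ?_, ?_⟩
  · refine Matrix.ext fun i j => ?_
    rw [Subsingleton.elim i j, Matrix.mul_apply, Matrix.one_apply_eq]
    simp only [Finset.univ_unique, Finset.sum_singleton, Matrix.conjTranspose_apply]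
    show star (toC (gel g)) * toC (gel g) = 1
    rw [← StarHomClass.map_star, ← map_mul, star_gel, gel_mul, inv_mul_cancel, gel_one, map_one]
  · refine Matrix.ext fun i j => ?_
    rw [Subsingleton.elim i j, Matrix.mul_apply, Matrix.one_apply_eq]
    simp only [Finset.univ_unique, Finset.sum_singleton, Matrix.conjTranspose_apply]
    show toC (gel g) * star (toC (gel g)) = 1
    rw [← StarHomClass.map_star, ← map_mul, star_gel, gel_mul, mul_inv_cancel, gel_one, map_one]
  · intro i j
    simp only [Finset.univ_unique, Finset.sum_singleton]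
    refine Eq.trans (b := toMax (toC (gel g) ⊗ₜ[ℂ] toC (gel g))) ?_
      (maxSquare_tmul (GroupCStar Λ) (toC (gel g)) (toC (gel g))).symm
    show K.comulC (toC (gel g)) = toMax (toC (gel g) ⊗ₜ[ℂ] toC (gel g))
    rw [comulC_toC, hJ, mapStar_tmul]

lemma one1_irreducible (g : Λ) : (K.twisted s hs e).Irreducible (one1 g) := by
  refine ⟨⟨0⟩, fun T _ => ⟨T 0 0, ?_⟩⟩
  refine Matrix.ext fun i j => ?_
  rw [Subsingleton.elim i 0, Subsingleton.elim j 0]
  simp

lemma one1_equivalent {g h : Λ} (H : (K.twisted s hs e).Equivalent (one1 g) (one1 h)) :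
    (toC (gel g) : GroupCStar Λ) = toC (gel h) := by
  obtain ⟨T, hT, -, hi⟩ := H
  rw [ClosedSubgroup.isom_iff] at hT
  rw [ClosedSubgroup.intertwines_iff] at hi
  have h1 := hi 0 0
  simp only [Finset.univ_unique, Finset.sum_singleton] at h1
  change T 0 0 • (toC (gel g) : GroupCStar Λ) = T 0 0 • toC (gel h) at h1
  have h2 : T 0 0 ≠ 0 := by
    intro h0
    have := hT 0 0
    simp [h0] at this
  exact smul_right_injective _ h2 h1

/-- Lower bound for `b_k`: it is at least the number of elements of a finite set of elements of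
`Λ`, commuting with the Klein four-group, distinct in `C*(Λ)`, and products of `k` generators. -/
lemma card_le_b {k m : ℕ} (w : Fin m → List ι) (hlen : ∀ i, (w i).length = k)
    (hx : ∀ i, ((w i).map s).prod * K.x = K.x * ((w i).map s).prod)
    (hy : ∀ i, ((w i).map s).prod * K.y = K.y * ((w i).map s).prod)
    (hinj : ∀ i j, (toC (gel ((w i).map s).prod) : GroupCStar Λ) = toC (gel ((w j).map s).prod) →
      i = j) :
    (m : ℕ∞) ≤ (K.twisted s hs e).b k := by
  have hfam : (K.twisted s hs e).IrredFamily k m (fun _ => 1)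
      (fun i => one1 ((w i).map s).prod) := by
    refine ⟨fun i => ⟨K.one1_isCorep s hs e (hx i) (hy i), K.one1_irreducible s hs e _, ?_⟩, ?_⟩
    · refine ⟨k, le_refl _, ?_⟩
      have hi := hlen i
      rcases hw : w i with _ | ⟨t, l⟩
      · -- empty word: the trivial corepresentation
        rw [hw] at hi
        simp only [List.length_nil] at hi
        subst hi
        refine ⟨Matrix.of fun _ _ => 1, (ClosedSubgroup.isom_iff _).2 ?_,
          ((K.twisted s hs e).intertwines_iff _ _ _).2 ?_⟩
        · intro i j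
          simp [Subsingleton.elim i j]
        · intro f q
          simp [ClosedSubgroup.power, one1, hw, gel_one]
      · have h1 := K.UC_contained_power s hs e t l
        rw [← hw, hlen i] at h1
        exact ClosedSubgroup.Contained.trans _
          (K.one1_contained_UC s hs e (hx i) (hy i)) h1
    · intro i j hij H
      exact hij (hinj i j (K.one1_equivalent s hs e H))
  rw [ClosedSubgroup.b]
  refine le_iSup_of_le m (le_iSup_of_le (fun _ => 1) (le_iSup_of_le
    (fun i => one1 ((w i).map s).prod) (le_iSup_of_le hfam ?_)))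
  simp

end Klein

end Pool.Agent.W381.QG
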