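import Pool.Agent.W381.QG.Tori

/-!
# The group generated by `A₅` and elementary matrices in `GL₅(ℤ)`
-/

set_option linter.unusedSectionVars false
set_option linter.unusedSimpArgs false

noncomputable section

namespace Pool.Agent.W381.QG

open Matrix

/-- 5×5 integer matrices -/
abbrev M5 : Type := Matrix (Fin 5) (Fin 5) ℤ

/-- permutation matrices -/
def permM (p : Equiv.Perm (Fin 5)) : M5 := fun i j => if i = p j then 1 else 0

lemma permM_mul (p q : Equiv.Perm (Fin 5)) : permM p * permM q = permM (p * q) := by
  ext i j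
  simp only [permM, Matrix.mul_apply, mul_ite, mul_one, mul_zero, Finset.sum_ite_eq',
    Finset.mem_univ, if_true]
  rfl

lemma permM_one : permM 1 = 1 := by
  ext i j
  simp only [permM, Matrix.one_apply]
  rfl

/-- the embedding of `A₅` -/
def perm5 : alternatingGroup (Fin 5) →* M5ˣ :=
  MonoidHom.toHomUnits
    { toFun := fun p => permM p
      map_one' := permM_one
      map_mul' := fun _ _ => (permM_mul _ _).symm }

@[simp] lemma coe_perm5 (p : alternatingGroup (Fin 5)) : (perm5 p : M5) = permM p := rfl

/-- elementary matrices -/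
def El (i j : Fin 5) (h : i ≠ j) : M5ˣ where
  val := transvection i j 1
  inv := transvection i j (-1)
  val_inv := by rw [transvection_mul_transvection_same i j h]; simp
  inv_val := by rw [transvection_mul_transvection_same i j h]; simp

lemma permM_conj (p : Equiv.Perm (Fin 5)) (i j : Fin 5) (c : ℤ) :
    permM p * transvection i j c = transvection (p i) (p j) c * permM p := by
  ext k l
  simp only [transvection, Matrix.mul_add, Matrix.add_mul, Matrix.mul_one, Matrix.one_mul,
    Matrix.add_apply]
  congr 1
  simp only [Matrix.mul_apply, permM, Matrix.single_apply]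
  by_cases h1 : k = p i
  · by_cases h2 : j = l
    · subst h1 h2; simp
    · subst h1
      simp [h2]
  · rw [Finset.sum_eq_zero, Finset.sum_eq_zero]
    · intro x _
      rw [if_neg (fun h => h1 h.1.symm), zero_mul]
    · intro x _
      by_cases h2 : i = x
      · subst h2; simp [h1]
      · simp [h2]

lemma conj_El (p : alternatingGroup (Fin 5)) (i j : Fin 5) (h : i ≠ j)
    (h' : (p : Equiv.Perm (Fin 5)) i ≠ (p : Equiv.Perm (Fin 5)) j) :
    perm5 p * El i j h * (perm5 p)⁻¹ =
      El ((p : Equiv.Perm (Fin 5)) i) ((p : Equiv.Perm (Fin 5)) j) h' := by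
  rw [mul_inv_eq_iff_eq_mul]
  ext : 1
  exact permM_conj p i j 1

lemma El_comm_rel : El 0 1 (by decide) * El 1 2 (by decide) =
    El 0 2 (by decide) * El 1 2 (by decide) * El 0 1 (by decide) := by
  ext : 1
  show transvection 0 1 1 * transvection 1 2 1 =
    transvection 0 2 1 * transvection 1 2 1 * transvection 0 1 1
  decide

/-- `∏_{i<4} e_{i4}` -/
def Aa : M5ˣ := El 0 4 (by decide) * El 1 4 (by decide) * El 2 4 (by decide) * El 3 4 (by decide)
/-- `∏_{i<4} e_{4i}` -/
def Bb : M5ˣ := El 4 0 (by decide) * El 4 1 (by decide) * El 4 2 (by decide) * El 4 3 (by decide)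

/-- the generating family -/
def s0 : alternatingGroup (Fin 5) ⊕ Fin 3 → M5ˣ
  | .inl p => perm5 p
  | .inr i => ![El 0 1 (by decide), Aa, Bb] i

/-- The group `Λ`. -/
abbrev Lam : Type := Subgroup.closure (Set.range s0)

/-- the generators in `Λ` -/
def gens (t : alternatingGroup (Fin 5) ⊕ Fin 3) : Lam := ⟨s0 t, Subgroup.subset_closure ⟨t, rfl⟩⟩

lemma closure_gens : Subgroup.closure (Set.range gens) = ⊤ := by
  rw [← Subgroup.closure_closure_coe_preimage (k := Set.range s0)]
  congr 1
  ext z
  constructor
  · rintro ⟨t, rfl⟩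
    exact ⟨t, rfl⟩
  · rintro ⟨t, ht⟩
    exact ⟨t, Subtype.ext ht⟩

/-- `A₅ → Λ` -/
def rho : alternatingGroup (Fin 5) →* Lam where
  toFun p := gens (.inl p)
  map_one' := Subtype.ext (map_one perm5)
  map_mul' p q := Subtype.ext (map_mul perm5 p q)

lemma coe_rho (p : alternatingGroup (Fin 5)) : ((rho p : Lam) : M5ˣ) = perm5 p := rfl

/-- the two involutions -/
def KL : Klein Lam where
  x := rho Klein.x0
  y := rho Klein.y0
  hx := by rw [← map_mul, ← map_one rho]; congr 1; decide
  hy := by rw [← map_mul, ← map_one rho]; congr 1; decide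
  hxy := by rw [← map_mul, ← map_mul]; congr 1; decide

lemma two_trans : ∀ i j : Fin 5, i ≠ j → ∃ p : alternatingGroup (Fin 5),
    (p : Equiv.Perm (Fin 5)) 0 = i ∧ (p : Equiv.Perm (Fin 5)) 1 = j := by
  decide

/-- `A₅` normally generates `Λ`. -/
lemma norm_gen (M : Type) [Monoid M] (f : Lam →* M) (hf : ∀ p, f (rho p) = 1) (g : Lam) :
    f g = 1 := by
  have hinv : ∀ g, f g = 1 → f g⁻¹ = 1 := by
    intro g hg
    have h : f g⁻¹ * f g = 1 := by rw [← map_mul, inv_mul_cancel, map_one]
    rwa [hg, mul_one] at h
  set ξ := f (gens (.inr 0)) with hξ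
  have key : ∀ i j (h : i ≠ j), ∃ z : Lam, (z : M5ˣ) = El i j h ∧ f z = ξ := by
    intro i j h
    obtain ⟨p, rfl, rfl⟩ := two_trans i j h
    refine ⟨rho p * gens (.inr 0) * (rho p)⁻¹, ?_, ?_⟩
    · exact conj_El p 0 1 (by decide) h
    · rw [map_mul, map_mul, hf, hinv _ (hf p), one_mul, mul_one]
  have hξ1 : ξ = 1 := by
    obtain ⟨z1, h1, h1'⟩ := key 0 1 (by decide)
    obtain ⟨z2, h2, h2'⟩ := key 1 2 (by decide)
    obtain ⟨z3, h3, h3'⟩ := key 0 2 (by decide)
    have hz : z1 * z2 = z3 * z2 * z1 := by
      apply Subtype.ext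
      show (z1 : M5ˣ) * z2 = z3 * z2 * z1
      rw [h1, h2, h3]
      exact El_comm_rel
    have hz2 := congrArg f hz
    rw [map_mul, map_mul, map_mul, h1', h2', h3'] at hz2
    have hl : f z1⁻¹ * ξ = 1 := by rw [← h1', ← map_mul, inv_mul_cancel, map_one]
    set η := f z1⁻¹
    calc ξ = (η * ξ) * ξ := by rw [hl, one_mul]
      _ = (η * ((η * ξ) * ξ)) * ξ := by rw [hl, one_mul, hl, one_mul]
      _ = η * (η * (ξ * ξ * ξ)) := by simp only [mul_assoc]
      _ = η * (η * (ξ * ξ)) := by rw [← hz2]
      _ = η * ((η * ξ) * ξ) := by simp only [mul_assoc]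
      _ = 1 := by rw [hl, one_mul, hl]
  have hgen : ∀ t, f (gens t) = 1 := by
    intro t
    rcases t with p | i
    · exact hf p
    · fin_cases i
      · exact hξ1
      · obtain ⟨z1, h1, h1'⟩ := key 0 4 (by decide)
        obtain ⟨z2, h2, h2'⟩ := key 1 4 (by decide)
        obtain ⟨z3, h3, h3'⟩ := key 2 4 (by decide)
        obtain ⟨z4, h4, h4'⟩ := key 3 4 (by decide)
        have hz : gens (.inr 1) = z1 * z2 * z3 * z4 := by
          apply Subtype.ext
          show Aa = (z1 : M5ˣ) * z2 * z3 * z4
          rw [h1, h2, h3, h4]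
          rfl
        show f (gens (.inr 1)) = 1
        rw [hz, map_mul, map_mul, map_mul, h1', h2', h3', h4', hξ1]
        simp
      · obtain ⟨z1, h1, h1'⟩ := key 4 0 (by decide)
        obtain ⟨z2, h2, h2'⟩ := key 4 1 (by decide)
        obtain ⟨z3, h3, h3'⟩ := key 4 2 (by decide)
        obtain ⟨z4, h4, h4'⟩ := key 4 3 (by decide)
        have hz : gens (.inr 2) = z1 * z2 * z3 * z4 := by
          apply Subtype.ext
          show Bb = (z1 : M5ˣ) * z2 * z3 * z4
          rw [h1, h2, h3, h4]
          rfl
        show f (gens (.inr 2)) = 1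
        rw [hz, map_mul, map_mul, map_mul, h1', h2', h3', h4', hξ1]
        simp
  have hg : g ∈ Subgroup.closure (Set.range gens) := by rw [closure_gens]; trivial
  induction hg using Subgroup.closure_induction with
  | mem x hx => obtain ⟨t, rfl⟩ := hx; exact hgen t
  | one => exact map_one f
  | mul x y _ _ hx hy => rw [map_mul, hx, hy, one_mul]
  | inv x _ hx => exact hinv x hx

/-! ### A free semigroup commuting with the Klein four-group -/

/-- `(x, x, x, x, y)` -/
def vec5 (x y : ℤ) : Fin 5 → ℤ := fun i => if i = 4 then y else x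

lemma El_mulVec (i j : Fin 5) (h : i ≠ j) (v : Fin 5 → ℤ) :
    (El i j h : M5) *ᵥ v = v + Pi.single i (v j) := by
  show transvection i j 1 *ᵥ v = _
  rw [transvection, Matrix.add_mulVec, Matrix.one_mulVec]
  congr 1
  ext k
  by_cases hik : k = i
  · subst hik
    simp [Matrix.mulVec, dotProduct, Matrix.single_apply]
  · simp [Matrix.mulVec, dotProduct, Matrix.single_apply, hik, Ne.symm hik]

lemma Aa_mulVec (x y : ℤ) : (Aa : M5) *ᵥ vec5 x y = vec5 (x + y) y := by
  simp only [Aa, Units.val_mul, ← Matrix.mulVec_mulVec, El_mulVec]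
  ext i
  fin_cases i <;> simp [vec5, Pi.single_apply]

lemma Bb_mulVec (x y : ℤ) : (Bb : M5) *ᵥ vec5 x y = vec5 x (y + 4 * x) := by
  simp only [Bb, Units.val_mul, ← Matrix.mulVec_mulVec, El_mulVec]
  ext i
  fin_cases i <;> simp [vec5, Pi.single_apply] <;> ring


/-- the letters of the free semigroup -/
def letter (b : Bool) : Lam := if b then gens (.inr 1) else gens (.inr 2)

/-- words -/
def word (l : List Bool) : Lam := (l.map letter).prod

lemma letter_mulVec (b : Bool) (x y : ℤ) : (((letter b : Lam) : M5ˣ) : M5) *ᵥ vec5 x y =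
    if b then vec5 (x + y) y else vec5 x (y + 4 * x) := by
  cases b
  · exact Bb_mulVec x y
  · exact Aa_mulVec x y

/-- the orbit of `(1, 1)` -/
def orb : List Bool → ℤ × ℤ
  | [] => (1, 1)
  | b :: l => if b then ((orb l).1 + (orb l).2, (orb l).2) else ((orb l).1, (orb l).2 + 4 * (orb l).1)

lemma word_mulVec (l : List Bool) : (((word l : Lam) : M5ˣ) : M5) *ᵥ vec5 1 1 =
    vec5 (orb l).1 (orb l).2 := by
  induction l with
  | nil =>
    show ((1 : M5ˣ) : M5) *ᵥ _ = _
    rw [Units.val_one, Matrix.one_mulVec]; rfl
  | cons b l ih =>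
    have h : word (b :: l) = letter b * word l := by simp [word]
    rw [h]
    show ((((letter b : Lam) : M5ˣ) : M5) * (((word l : Lam) : M5ˣ) : M5)) *ᵥ _ = _
    rw [← Matrix.mulVec_mulVec, ih, letter_mulVec, orb]
    cases b <;> rfl

lemma orb_pos (l : List Bool) : 0 < (orb l).1 ∧ 0 < (orb l).2 := by
  induction l with
  | nil => simp [orb]
  | cons b l ih =>
    rw [orb]
    cases b
    · exact ⟨ih.1, by show 0 < (orb l).2 + 4 * (orb l).1; omega⟩
    · exact ⟨by show 0 < (orb l).1 + (orb l).2; omega, ih.2⟩

lemma orb_true (l : List Bool) : orb (true :: l) = ((orb l).1 + (orb l).2, (orb l).2) := rfl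
lemma orb_false (l : List Bool) : orb (false :: l) = ((orb l).1, (orb l).2 + 4 * (orb l).1) := rfl

lemma orb_inj : ∀ l l' : List Bool, orb l = orb l' → l = l' := by
  intro l
  induction l with
  | nil =>
    intro l' h
    cases l' with
    | nil => rfl
    | cons b l' =>
      exfalso
      have := orb_pos l'
      cases b
      · rw [orb_false] at h
        have h1 := congrArg Prod.fst h
        have h2 := congrArg Prod.snd h
        simp only [orb] at h1 h2
        omega
      · rw [orb_true] at h
        have h1 := congrArg Prod.fst h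
        have h2 := congrArg Prod.snd h
        simp only [orb] at h1 h2
        omega
  | cons b l ih =>
    intro l' h
    have hl := orb_pos l
    cases l' with
    | nil =>
      exfalso
      cases b
      · rw [orb_false] at h
        have h1 := congrArg Prod.fst h
        have h2 := congrArg Prod.snd h
        simp only [orb] at h1 h2
        omega
      · rw [orb_true] at h
        have h1 := congrArg Prod.fst h
        have h2 := congrArg Prod.snd h
        simp only [orb] at h1 h2
        omega
    | cons b' l' =>
      have hl' := orb_pos l'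
      cases b <;> cases b'
      · rw [orb_false, orb_false] at h
        have h1 := congrArg Prod.fst h
        have h2 := congrArg Prod.snd h
        simp only at h1 h2
        rw [ih l' (Prod.ext h1 (by omega))]
      · exfalso
        rw [orb_false, orb_true] at h
        have h1 := congrArg Prod.fst h
        have h2 := congrArg Prod.snd h
        simp only at h1 h2
        omega
      · exfalso
        rw [orb_false, orb_true] at h
        have h1 := congrArg Prod.fst h
        have h2 := congrArg Prod.snd h
        simp only at h1 h2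
        omega
      · rw [orb_true, orb_true] at h
        have h1 := congrArg Prod.fst h
        have h2 := congrArg Prod.snd h
        simp only at h1 h2
        rw [ih l' (Prod.ext (by omega) h2)]

/-- Distinct words give distinct elements of `Λ`. -/
lemma word_inj (l l' : List Bool) (h : word l = word l') : l = l' := by
  apply orb_inj
  have h1 := word_mulVec l
  rw [h, word_mulVec] at h1
  have h2 := congrFun h1 0
  have h3 := congrFun h1 4
  simp [vec5] at h2 h3
  exact Prod.ext h2.symm h3.symm

lemma letter_comm_x (b : Bool) : letter b * KL.x = KL.x * letter b := by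
  apply Subtype.ext
  apply Units.ext
  cases b
  · show transvection 4 0 1 * transvection 4 1 1 * transvection 4 2 1 * transvection 4 3 1 *
      permM (Klein.x0 : alternatingGroup (Fin 5)) = permM (Klein.x0 : alternatingGroup (Fin 5)) *
      (transvection 4 0 1 * transvection 4 1 1 * transvection 4 2 1 * transvection 4 3 1)
    decide
  · show transvection 0 4 1 * transvection 1 4 1 * transvection 2 4 1 * transvection 3 4 1 *
      permM (Klein.x0 : alternatingGroup (Fin 5)) = permM (Klein.x0 : alternatingGroup (Fin 5)) *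
      (transvection 0 4 1 * transvection 1 4 1 * transvection 2 4 1 * transvection 3 4 1)
    decide

lemma letter_comm_y (b : Bool) : letter b * KL.y = KL.y * letter b := by
  apply Subtype.ext
  apply Units.ext
  cases b
  · show transvection 4 0 1 * transvection 4 1 1 * transvection 4 2 1 * transvection 4 3 1 *
      permM (Klein.y0 : alternatingGroup (Fin 5)) = permM (Klein.y0 : alternatingGroup (Fin 5)) *
      (transvection 4 0 1 * transvection 4 1 1 * transvection 4 2 1 * transvection 4 3 1)
    decide
  · show transvection 0 4 1 * transvection 1 4 1 * transvection 2 4 1 * transvection 3 4 1 *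
      permM (Klein.y0 : alternatingGroup (Fin 5)) = permM (Klein.y0 : alternatingGroup (Fin 5)) *
      (transvection 0 4 1 * transvection 1 4 1 * transvection 2 4 1 * transvection 3 4 1)
    decide

end Pool.Agent.W381.QG
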