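import Pool.Agent.W381.QG.NonAmen

/-!
# The Haar state of the twisted group dual, and non-coamenability
-/

set_option linter.unusedSectionVars false
set_option linter.unusedSimpArgs false

noncomputable section

namespace Pool.Agent.W381.QG

open scoped TensorProduct Matrix InnerProductSpace

variable {Λ : Type} [Group Λ]

/-- the canonical trace of the group algebra -/
def tau (Λ : Type) [Group Λ] : GA Λ →ₗ[ℂ] ℂ where
  toFun a := a.coeff 1
  map_add' a b := by simp
  map_smul' c a := by simp

open Classical in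
lemma tau_gel (g : Λ) : tau Λ (gel g) = if g = 1 then 1 else 0 := by
  show (Finsupp.single g (1 : ℂ)) 1 = _
  rw [Finsupp.single_apply]

/-- `τ ⊗ id` -/
def slL (Λ : Type) [Group Λ] : GA Λ ⊗[ℂ] GA Λ →ₗ[ℂ] GA Λ :=
  (TensorProduct.lid ℂ (GA Λ) : ℂ ⊗[ℂ] GA Λ →ₗ[ℂ] GA Λ) ∘ₗ (tau Λ).rTensor (GA Λ)

/-- `id ⊗ τ` -/
def slR (Λ : Type) [Group Λ] : GA Λ ⊗[ℂ] GA Λ →ₗ[ℂ] GA Λ :=
  (TensorProduct.rid ℂ (GA Λ) : GA Λ ⊗[ℂ] ℂ →ₗ[ℂ] GA Λ) ∘ₗ (tau Λ).lTensor (GA Λ)

@[simp] lemma slL_tmul (a b : GA Λ) : slL Λ (a ⊗ₜ[ℂ] b) = tau Λ a • b := by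
  simp [slL]

@[simp] lemma slR_tmul (a b : GA Λ) : slR Λ (a ⊗ₜ[ℂ] b) = tau Λ b • a := by
  simp [slR]

namespace Klein

variable (K : Klein Λ)

lemma DeltaJ_of_comm {g : Λ} (hx : g * K.x = K.x * g) (hy : g * K.y = K.y * g) :
    K.DeltaJ (gel g) = gel g ⊗ₜ[ℂ] gel g := by
  have ha : gel g * K.a = K.a * gel g := by rw [a, gel_mul, gel_mul, hx]
  have hb : gel g * K.b = K.b * gel g := by rw [b, gel_mul, gel_mul, hy]
  have hc : K.J * (gel g ⊗ₜ[ℂ] gel g) = (gel g ⊗ₜ[ℂ] gel g) * K.J := by
    simp only [J, smul_mul_assoc, mul_smul_comm, add_mul, mul_add, sub_mul, mul_sub,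
      Algebra.TensorProduct.tmul_mul_tmul, one_mul, mul_one, ha, hb]
  rw [DeltaJ_apply, Delta_gel, hc, mul_assoc, JJ, mul_one]

lemma slL_DeltaJ_gel (g : Λ) : slL Λ (K.DeltaJ (gel g)) = tau Λ (gel g) • 1 := by
  classical
  by_cases h1 : g = 1
  · subst h1
    rw [K.DeltaJ_of_comm (by simp) (by simp), slL_tmul]
    rfl
  by_cases h2 : g = K.y
  · subst h2
    rw [K.DeltaJ_of_comm K.hxy.symm rfl, slL_tmul, tau_gel, if_neg h1, zero_smul, zero_smul]
  · have e1 : tau Λ (gel g) = 0 := by rw [tau_gel, if_neg h1]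
    have e2 : tau Λ (K.b * gel g) = 0 := by
      rw [b, gel_mul, tau_gel, if_neg]
      intro h
      apply h2
      have := eq_inv_of_mul_eq_one_right h
      rw [this, y_inv]
    have e3 : tau Λ (gel g * K.b) = 0 := by
      rw [b, gel_mul, tau_gel, if_neg]
      intro h
      apply h2
      have := eq_inv_of_mul_eq_one_left h
      rw [this, y_inv]
    have e4 : tau Λ (K.b * (gel g * K.b)) = 0 := by
      rw [b, gel_mul, gel_mul, tau_gel, if_neg]
      intro h
      apply h1
      have h3 : g * K.y = K.y⁻¹ := eq_inv_of_mul_eq_one_right h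
      rw [y_inv] at h3
      exact mul_eq_right.1 h3
    rw [DeltaJ_apply, Delta_gel]
    simp only [J, smul_mul_assoc, mul_smul_comm, add_mul, mul_add, sub_mul, mul_sub,
      Algebra.TensorProduct.tmul_mul_tmul, one_mul, mul_one, map_smul, map_add, map_sub,
      slL_tmul, mul_assoc, e1, e2, e3, e4, zero_smul, smul_zero, add_zero, sub_zero]

lemma slR_DeltaJ_gel (g : Λ) : slR Λ (K.DeltaJ (gel g)) = tau Λ (gel g) • 1 := by
  classical
  by_cases h1 : g = 1
  · subst h1
    rw [K.DeltaJ_of_comm (by simp) (by simp), slR_tmul]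
    rfl
  by_cases h2 : g = K.x
  · subst h2
    rw [K.DeltaJ_of_comm rfl K.hxy, slR_tmul, tau_gel, if_neg h1, zero_smul, zero_smul]
  · have e1 : tau Λ (gel g) = 0 := by rw [tau_gel, if_neg h1]
    have e2 : tau Λ (K.a * gel g) = 0 := by
      rw [a, gel_mul, tau_gel, if_neg]
      intro h
      apply h2
      have := eq_inv_of_mul_eq_one_right h
      rw [this, x_inv]
    have e3 : tau Λ (gel g * K.a) = 0 := by
      rw [a, gel_mul, tau_gel, if_neg]
      intro h
      apply h2
      have := eq_inv_of_mul_eq_one_left h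
      rw [this, x_inv]
    have e4 : tau Λ (K.a * (gel g * K.a)) = 0 := by
      rw [a, gel_mul, gel_mul, tau_gel, if_neg]
      intro h
      apply h1
      have h3 : g * K.x = K.x⁻¹ := eq_inv_of_mul_eq_one_right h
      rw [x_inv] at h3
      exact mul_eq_right.1 h3
    rw [DeltaJ_apply, Delta_gel]
    simp only [J, smul_mul_assoc, mul_smul_comm, add_mul, mul_add, sub_mul, mul_sub,
      Algebra.TensorProduct.tmul_mul_tmul, one_mul, mul_one, map_smul, map_add, map_sub,
      slR_tmul, mul_assoc, e1, e2, e3, e4, zero_smul, smul_zero, add_zero, sub_zero]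

/-- Left invariance of the trace. -/
lemma slL_DeltaJ (z : GA Λ) : slL Λ (K.DeltaJ z) = tau Λ z • 1 := by
  induction z using MonoidAlgebra.induction_linear with
  | zero => simp
  | add a b ha hb => rw [map_add, map_add, map_add, add_smul, ha, hb]
  | single g c =>
    rw [single_eq_smul_gel, map_smul, map_smul, map_smul, slL_DeltaJ_gel, smul_assoc]

/-- Right invariance of the trace. -/
lemma slR_DeltaJ (z : GA Λ) : slR Λ (K.DeltaJ z) = tau Λ z • 1 := by
  induction z using MonoidAlgebra.induction_linear with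
  | zero => simp
  | add a b ha hb => rw [map_add, map_add, map_add, add_smul, ha, hb]
  | single g c =>
    rw [single_eq_smul_gel, map_smul, map_smul, map_smul, slR_DeltaJ_gel, smul_assoc]

/-- `Δ_J(w_ij) = ∑ w_ik ⊗ w_kj` -/
def IsCom {n : Type} [Fintype n] (w : Matrix n n (GA Λ)) : Prop :=
  ∀ i j, K.DeltaJ (w i j) = ∑ k, w i k ⊗ₜ[ℂ] w k j

/-- `1 ⊕ w ⊕ w̄` over the group algebra -/
def base0 {n : Type} [DecidableEq n] (w : Matrix n n (GA Λ)) :
    Matrix (Unit ⊕ n ⊕ n) (Unit ⊕ n ⊕ n) (GA Λ) :=
  Matrix.fromBlocks 1 0 0 (Matrix.fromBlocks w 0 0 (w.map star))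

lemma isCom_base0 {n : Type} [Fintype n] [DecidableEq n] {w : Matrix n n (GA Λ)}
    (hw : K.IsCom w) : K.IsCom (base0 w) := by
  intro i j
  rcases i with i | i | i <;> rcases j with j | j | j <;>
  simp only [Fintype.sum_sum_type, base0, Matrix.fromBlocks_apply₁₁, Matrix.fromBlocks_apply₁₂,
    Matrix.fromBlocks_apply₂₁, Matrix.fromBlocks_apply₂₂, Matrix.zero_apply, map_zero,
    TensorProduct.zero_tmul, TensorProduct.tmul_zero, Finset.sum_const_zero, add_zero, zero_add,
    Matrix.map_apply]
  · simp [Algebra.TensorProduct.one_def]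
  · exact hw i j
  · rw [StarHomClass.map_star, hw i j, star_sum]
    simp only [TensorProduct.star_tmul]

/-- tensor powers over the group algebra -/
def power0 {n : Type} (w : Matrix n n (GA Λ)) (k : ℕ) :
    Matrix (Fin k → n) (Fin k → n) (GA Λ) :=
  fun f g => (List.ofFn fun i => w (f i) (g i)).prod

lemma power0_cons {n : Type} (w : Matrix n n (GA Λ)) (k : ℕ) (x y : n) (f g : Fin k → n) :
    power0 w (k + 1) (Fin.cons x f) (Fin.cons y g) = w x y * power0 w k f g := by
  simp [power0, List.ofFn_succ]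

lemma isCom_power0 {n : Type} [Fintype n] [DecidableEq n] {w : Matrix n n (GA Λ)}
    (hw : K.IsCom w) (k : ℕ) : K.IsCom (power0 w k) := by
  induction k with
  | zero =>
    intro f g
    simp [power0, Algebra.TensorProduct.one_def]
  | succ k ih =>
    intro f g
    obtain ⟨⟨x, f'⟩, rfl⟩ := (Fin.consEquiv (fun _ => n)).surjective f
    obtain ⟨⟨y, g'⟩, rfl⟩ := (Fin.consEquiv (fun _ => n)).surjective g
    have h1 : power0 w (k + 1) ((Fin.consEquiv fun _ => n) (x, f'))
        ((Fin.consEquiv fun _ => n) (y, g')) = w x y * power0 w k f' g' :=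
      power0_cons w k x y f' g'
    rw [h1, map_mul, hw, ih]
    rw [← (Fin.consEquiv (fun _ => n)).sum_comp, Fintype.sum_prod_type, Finset.sum_mul]
    refine Finset.sum_congr rfl fun z _ => ?_
    rw [Finset.mul_sum]
    refine Finset.sum_congr rfl fun h _ => ?_
    have h2 : power0 w (k + 1) ((Fin.consEquiv fun _ => n) (x, f'))
        ((Fin.consEquiv fun _ => n) (z, h)) = w x z * power0 w k f' h :=
      power0_cons w k x z f' h
    have h3 : power0 w (k + 1) ((Fin.consEquiv fun _ => n) (z, h))
        ((Fin.consEquiv fun _ => n) (y, g')) = w z y * power0 w k h g' :=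
      power0_cons w k z y h g'
    rw [h2, h3, Algebra.TensorProduct.tmul_mul_tmul]

end Klein

/-! ### The Haar state -/

/-- the Haar state of `GG` -/
def haar : GroupCStar Lam →ₗ[ℂ] ℂ where
  toFun a := ⟪del Lam, regC Lam a (del Lam)⟫_ℂ
  map_add' a b := by
    rw [map_add, add_apply, inner_add_right]
  map_smul' c a := by
    rw [map_smul, smul_apply, inner_smul_right]; rfl

lemma haar_apply (a : GroupCStar Lam) :
    haar a = ⟪del Lam, regC Lam a (del Lam)⟫_ℂ := rfl

lemma haar_gel (g : Lam) : haar (toC (gel g)) = tau Lam (gel g) := by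
  classical
  rw [haar_apply, regC_gel, lp.inner_eq_tsum, tsum_eq_single (1 : Lam)]
  · rw [del_apply, if_pos rfl, reg_del_apply, tau_gel]
    by_cases h : g = 1
    · simp [h]
    · have h' : ¬ (1 : Lam) = g := fun h' => h h'.symm
      simp [h, h']
  · intro x hx
    rw [del_apply, if_neg hx, inner_zero_left]

lemma haar_toC (a : GA Lam) : haar (toC a) = tau Lam a := by
  induction a using MonoidAlgebra.induction_linear with
  | zero => simp
  | add a b ha hb => rw [map_add, map_add, map_add, ha, hb]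
  | single g c =>
    rw [single_eq_smul_gel, map_smul, map_smul, map_smul, haar_gel]

lemma haar_star_mul (a : GroupCStar Lam) :
    haar (star a * a) = ((‖regC Lam a (del Lam)‖ ^ 2 : ℝ) : ℂ) := by
  rw [haar_apply, map_mul, StarHomClass.map_star, ContinuousLinearMap.star_eq_adjoint,
    mul_apply_eq_comp, ContinuousLinearMap.adjoint_inner_right, inner_self_eq_norm_sq_to_K]
  push_cast
  rfl

lemma power_base_eq (k : ℕ) (f g : Fin k → Unit ⊕ Fin NN ⊕ Fin NN) :
    GG.power GG.base k f g = toC (Klein.power0 (Klein.base0 ww) k f g) := by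
  have hb : ∀ x y, GG.base x y = toC (Klein.base0 ww x y) := by
    intro x y
    rcases x with x | x | x <;> rcases y with y | y | y <;>
    simp only [ClosedSubgroup.base, Klein.base0, Matrix.fromBlocks_apply₁₁,
      Matrix.fromBlocks_apply₁₂, Matrix.fromBlocks_apply₂₁, Matrix.fromBlocks_apply₂₂,
      Matrix.zero_apply, map_zero, Matrix.map_apply]
    · simp
    · rfl
    · rw [StarHomClass.map_star]; rfl
  rw [ClosedSubgroup.power, Klein.power0, map_list_prod, List.map_ofFn]
  congr 2
  funext i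
  exact hb _ _

theorem haar_isHaarState : GG.IsHaarState haar := by
  have hcom : ∀ k, KL.IsCom (Klein.power0 (Klein.base0 ww) k) := fun k =>
    KL.isCom_power0 (KL.isCom_base0 isRep_ww.comul) k
  constructor
  · have := haar_toC (1 : GA Lam)
    rw [map_one] at this
    refine this.trans ?_
    rw [← gel_one]
    classical
    rw [tau_gel, if_pos rfl]
  · intro a
    have h := haar_star_mul a
    refine ⟨?_, ?_⟩
    · refine le_of_le_of_eq ?_ (congrArg Complex.re h).symm
      rw [Complex.ofReal_re]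
      positivity
    · refine (congrArg Complex.im h).trans ?_
      rw [Complex.ofReal_im]
  · intro k i j
    have h := KL.slL_DeltaJ (Klein.power0 (Klein.base0 ww) k i j)
    rw [hcom k i j, map_sum] at h
    simp only [slL_tmul] at h
    have h2 := congrArg (toC : GA Lam →⋆ₐ[ℂ] GroupCStar Lam) h
    rw [map_sum, map_smul, map_one] at h2
    simp only [map_smul] at h2
    simp only [power_base_eq]
    simp only [← haar_toC] at h2
    exact h2
  · intro k i j
    have h := KL.slR_DeltaJ (Klein.power0 (Klein.base0 ww) k i j)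
    rw [hcom k i j, map_sum] at h
    simp only [slR_tmul] at h
    have h2 := congrArg (toC : GA Lam →⋆ₐ[ℂ] GroupCStar Lam) h
    rw [map_sum, map_smul, map_one] at h2
    simp only [map_smul] at h2
    simp only [power_base_eq]
    simp only [← haar_toC] at h2
    exact h2

/-- `G` is not coamenable. -/
theorem not_coamenable : ¬ GG.Coamenable := by
  intro hco
  have h1 := hco haar haar_isHaarState
  -- the regular representation is injective
  have hinj : Function.Injective (regC Lam) := by
    rw [injective_iff_map_eq_zero]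
    intro a ha
    apply h1
    intro b
    have := haar_star_mul (a * b)
    refine this.trans ?_
    rw [map_mul, ha]
    simp
  obtain ⟨g, hg⟩ := exists_five
  have h2 : ‖regC Lam (toC (∑ i, gel (g i)))‖ = ‖(toC (∑ i, gel (g i)) : GroupCStar Lam)‖ :=
    NonUnitalStarAlgHom.norm_map _ hinj _
  have h3 : ‖Klein.counitC Lam (toC (∑ i, gel (g i)))‖ ≤ ‖(toC (∑ i, gel (g i)) : GroupCStar Lam)‖ :=
    NonUnitalStarAlgHom.norm_apply_le _ _
  have e1 : regC Lam (toC (∑ i, gel (g i))) = ∑ i, reg Lam (g i) := by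
    rw [map_sum, map_sum]
    simp only [regC_gel]
  rw [e1] at h2
  rw [← h2, Klein.counitC_toC, map_sum] at h3
  simp only [eps_gel] at h3
  have h4 := h3.trans hg
  simp at h4
  have h5 : Real.sqrt 5 < 5 / 2 := by
    rw [Real.sqrt_lt' (by norm_num)]
    norm_num
  linarith

/-- The trivial group is amenable. -/
lemma isAmenable_of_subsingleton (H : Type) [Group H] [Subsingleton H] : IsAmenableGroup H := by
  classical
  refine ⟨fun A => if (1 : H) ∈ A then 1 else 0, ?_, ?_, ?_, ?_⟩
  · intro A
    dsimp only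
    split_ifs <;> norm_num
  · simp
  · intro A B hAB
    dsimp only
    by_cases hA : (1 : H) ∈ A
    · have hB : (1 : H) ∉ B := Set.disjoint_left.1 hAB hA
      simp [hA, hB]
    · by_cases hB : (1 : H) ∈ B <;> simp [hA, hB]
  · intro g A
    have : (fun x => g * x) '' A = A := by
      have : (fun x : H => g * x) = id := by
        funext x; exact Subsingleton.elim _ _
      rw [this, Set.image_id]
    rw [this]

/-- Every diagonal torus is amenable. -/
theorem torus_amenable {Q : Matrix (Fin NN) (Fin NN) ℂ}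
    (hQ : Q ∈ Matrix.unitaryGroup (Fin NN) ℂ) : IsAmenableGroup (GG.torus Q) := by
  have h : GG.torus Q = ⊥ := torus_eq_bot hQ
  have : Subsingleton (GG.torus Q) := by
    rw [h]; infer_instance
  exact isAmenable_of_subsingleton _

end Pool.Agent.W381.QG
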