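import Pool.Agent.W381.QG.Reg

/-!
# A norm estimate in the left regular representation from ping-pong sets
-/

set_option linter.unusedSectionVars false
set_option linter.unusedSimpArgs false

noncomputable section

namespace Pool.Agent.W381.QG

open scoped ENNReal InnerProductSpace

variable {Λ : Type} [Group Λ]

lemma summable_sq (f : l2 Λ) : Summable fun x => ‖(f : Λ → ℂ) x‖ ^ 2 := by
  have h := lp.memℓp f
  rw [memℓp_gen_iff (by norm_num)] at h
  simpa using h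

lemma norm_sq_eq (f : l2 Λ) : ‖f‖ ^ 2 = ∑' x, ‖(f : Λ → ℂ) x‖ ^ 2 := by
  have h := lp.norm_rpow_eq_tsum (p := 2) (by norm_num) f
  simpa using h

open Classical in
lemma memlp_res (S : Set Λ) (f : l2 Λ) :
    Memℓp (fun x => if x ∈ S then (f : Λ → ℂ) x else 0) 2 := by
  rw [memℓp_gen_iff (by norm_num)]
  refine Summable.of_nonneg_of_le (fun x => by positivity) (fun x => ?_) (summable_sq f)
  split_ifs
  · simp
  · simp

open Classical in
/-- restriction of a function to a subset -/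
def res (S : Set Λ) (f : l2 Λ) : l2 Λ := ⟨_, memlp_res S f⟩

open Classical in
lemma res_apply (S : Set Λ) (f : l2 Λ) (x : Λ) :
    (res S f : Λ → ℂ) x = if x ∈ S then (f : Λ → ℂ) x else 0 := rfl

lemma res_add_compl (S : Set Λ) (f : l2 Λ) : res S f + res Sᶜ f = f := by
  classical
  ext x
  show (res S f : Λ → ℂ) x + (res Sᶜ f : Λ → ℂ) x = f x
  rw [res_apply, res_apply]
  by_cases h : x ∈ S <;> simp [h]

lemma norm_res_le (S : Set Λ) (f : l2 Λ) : ‖res S f‖ ≤ ‖f‖ := by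
  classical
  rw [← abs_of_nonneg (norm_nonneg (res S f)), ← abs_of_nonneg (norm_nonneg f), ← sq_le_sq,
    norm_sq_eq, norm_sq_eq]
  refine (summable_sq _).tsum_le_tsum (fun x => ?_) (summable_sq _)
  rw [res_apply]
  split_ifs
  · exact le_rfl
  · simp

/-- Bessel's inequality for pairwise disjoint sets. -/
lemma sum_norm_res_sq_le {n : ℕ} (E : Fin n → Set Λ) (hE : ∀ i j, i ≠ j → Disjoint (E i) (E j))
    (f : l2 Λ) : ∑ i, ‖res (E i) f‖ ^ 2 ≤ ‖f‖ ^ 2 := by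
  classical
  simp only [norm_sq_eq]
  rw [← Summable.tsum_finsetSum (fun i _ => summable_sq _)]
  refine Summable.tsum_le_tsum (fun x => ?_) (summable_sum fun i _ => summable_sq _)
    (summable_sq _)
  by_cases hx : ∃ i, x ∈ E i
  · obtain ⟨i, hi⟩ := hx
    rw [Finset.sum_eq_single i]
    · rw [res_apply, if_pos hi]
    · intro j _ hj
      have hj' : x ∉ E j := fun h => Set.disjoint_left.1 (hE i j (Ne.symm hj)) hi h
      rw [res_apply, if_neg hj']
      simp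
    · simp
  · push Not at hx
    have : ∑ i, ‖(res (E i) f : Λ → ℂ) x‖ ^ 2 = 0 := by
      refine Finset.sum_eq_zero fun i _ => ?_
      rw [res_apply, if_neg (hx i)]
      simp
    rw [this]
    positivity

lemma sum_norm_res_le {n : ℕ} (E : Fin n → Set Λ) (hE : ∀ i j, i ≠ j → Disjoint (E i) (E j))
    (f : l2 Λ) : ∑ i, ‖res (E i) f‖ ≤ Real.sqrt n * ‖f‖ := by
  have h1 := sum_norm_res_sq_le E hE f
  have h2 : (∑ i, ‖res (E i) f‖) ^ 2 ≤ n * ∑ i, ‖res (E i) f‖ ^ 2 := by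
    have := sq_sum_le_card_mul_sum_sq (s := Finset.univ) (f := fun i => ‖res (E i) f‖)
    simpa using this
  have h3 : (∑ i, ‖res (E i) f‖) ^ 2 ≤ (Real.sqrt n * ‖f‖) ^ 2 := by
    rw [mul_pow, Real.sq_sqrt (by positivity)]
    exact h2.trans (mul_le_mul_of_nonneg_left h1 (by positivity))
  exact le_of_sq_le_sq h3 (by positivity)

lemma norm_reg (g : Λ) (f : l2 Λ) : ‖reg Λ g f‖ = ‖f‖ := norm_trLin g f

lemma inner_reg_le (g : Λ) (E : Set Λ) (hg : ∀ x, x ∉ E → g * x ∈ E) (f h : l2 Λ) :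
    ‖⟪h, reg Λ g f⟫_ℂ‖ ≤ ‖h‖ * ‖res E f‖ + ‖res E h‖ * ‖f‖ := by
  classical
  have h1 : reg Λ g f = reg Λ g (res E f) + reg Λ g (res Eᶜ f) := by
    rw [← map_add, res_add_compl]
  have h2 : ⟪h, reg Λ g (res Eᶜ f)⟫_ℂ = ⟪res E h, reg Λ g (res Eᶜ f)⟫_ℂ := by
    rw [lp.inner_eq_tsum, lp.inner_eq_tsum]
    congr 1
    funext x
    rw [reg_apply, res_apply, res_apply]
    by_cases hx : g⁻¹ * x ∈ Eᶜ
    · have hx' : x ∈ E := by
        have := hg (g⁻¹ * x) hx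
        rwa [mul_inv_cancel_left] at this
      rw [if_pos hx']
    · rw [if_neg hx, inner_zero_right, inner_zero_right]
  rw [h1, inner_add_right, h2]
  refine (norm_add_le _ _).trans (add_le_add ?_ ?_)
  · refine (norm_inner_le_norm _ _).trans ?_
    rw [norm_reg]
  · refine (norm_inner_le_norm _ _).trans ?_
    rw [norm_reg]
    exact mul_le_mul_of_nonneg_left (norm_res_le _ _) (norm_nonneg _)

/-- Powers' estimate: `‖∑ λ(g_i)‖ ≤ 2 √n` if there are pairwise disjoint sets `E_i` with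
`g_i (Λ ∖ E_i) ⊆ E_i`. -/
theorem norm_sum_reg_le {n : ℕ} (g : Fin n → Λ) (E : Fin n → Set Λ)
    (hE : ∀ i j, i ≠ j → Disjoint (E i) (E j)) (hg : ∀ i x, x ∉ E i → g i * x ∈ E i) :
    ‖∑ i, reg Λ (g i)‖ ≤ 2 * Real.sqrt n := by
  refine ContinuousLinearMap.opNorm_le_bound _ (by positivity) fun f => ?_
  set z : l2 Λ := (∑ i, reg Λ (g i)) f with hz
  have hz' : z = ∑ i, reg Λ (g i) f := by
    rw [hz, sum_apply]
  have h1 : ‖⟪z, z⟫_ℂ‖ ≤ 2 * Real.sqrt n * ‖f‖ * ‖z‖ := by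
    calc ‖⟪z, z⟫_ℂ‖ = ‖∑ i, ⟪z, reg Λ (g i) f⟫_ℂ‖ := by
          conv_lhs => rw [hz', inner_sum, ← hz']
      _ ≤ ∑ i, ‖⟪z, reg Λ (g i) f⟫_ℂ‖ := norm_sum_le _ _
      _ ≤ ∑ i, (‖z‖ * ‖res (E i) f‖ + ‖res (E i) z‖ * ‖f‖) :=
          Finset.sum_le_sum fun i _ => inner_reg_le (g i) (E i) (hg i) f z
      _ = ‖z‖ * ∑ i, ‖res (E i) f‖ + (∑ i, ‖res (E i) z‖) * ‖f‖ := by
          rw [Finset.sum_add_distrib, Finset.mul_sum, Finset.sum_mul]
      _ ≤ ‖z‖ * (Real.sqrt n * ‖f‖) + (Real.sqrt n * ‖z‖) * ‖f‖ := by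
          refine add_le_add (mul_le_mul_of_nonneg_left (sum_norm_res_le E hE f)
            (norm_nonneg _)) (mul_le_mul_of_nonneg_right (sum_norm_res_le E hE z)
            (norm_nonneg _))
      _ = 2 * Real.sqrt n * ‖f‖ * ‖z‖ := by ring
  rw [inner_self_eq_norm_sq_to_K] at h1
  have h2 : ‖z‖ ^ 2 ≤ 2 * Real.sqrt n * ‖f‖ * ‖z‖ := by simpa using h1
  rcases eq_or_lt_of_le (norm_nonneg z) with h0 | h0
  · rw [← h0]; positivity
  · have h3 : ‖z‖ * ‖z‖ ≤ (2 * Real.sqrt n * ‖f‖) * ‖z‖ := by rw [← sq]; exact h2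
    exact le_of_mul_le_mul_right h3 h0

end Pool.Agent.W381.QG
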