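import Pool.Agent.W381.QG.Final
import Pool.Agent.W381.QG.PingPong

/-!
# The trivial representation of `Λ` is not weakly contained in the regular one
-/

set_option linter.unusedSectionVars false
set_option linter.unusedSimpArgs false

noncomputable section

namespace Pool.Agent.W381.QG

open Matrix

/-- the `ℓ¹`-norm of a row -/
def rowNorm (z : Lam) (i : Fin 5) : ℤ := ∑ j, |((z : M5ˣ) : M5) i j|

lemma rowNorm_pos (z : Lam) (i : Fin 5) : 0 < rowNorm z i := by
  have h0 : 0 ≤ rowNorm z i := Finset.sum_nonneg fun j _ => abs_nonneg _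
  rcases eq_or_lt_of_le h0 with h | h
  · exfalso
    have h1 : ∀ j, ((z : M5ˣ) : M5) i j = 0 := by
      intro j
      have := (Finset.sum_eq_zero_iff_of_nonneg (fun j _ => abs_nonneg _)).1 h.symm j
        (Finset.mem_univ j)
      simpa using this
    have h2 : (((z : M5ˣ) : M5) * (((z : M5ˣ)⁻¹ : M5ˣ) : M5)) i i = 1 := by
      rw [Units.mul_inv, Matrix.one_apply_eq]
    rw [Matrix.mul_apply] at h2
    simp [h1] at h2
  · exact h

/-- `e_01(1)` -/
def e01 : Lam := gens (.inr 0)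

lemma coe_e01_zpow (k : ℤ) : (((e01 ^ k : Lam) : M5ˣ) : M5) = transvection 0 1 k := by
  have h1 : ∀ n : ℕ, (((e01 ^ n : Lam) : M5ˣ) : M5) = transvection 0 1 (n : ℤ) := by
    intro n
    induction n with
    | zero => simp
    | succ n ih =>
      rw [pow_succ]
      show (((e01 ^ n : Lam) : M5ˣ) : M5) * transvection 0 1 1 = _
      rw [ih, transvection_mul_transvection_same 0 1 (by decide)]
      push_cast
      rfl
  rcases Int.eq_nat_or_neg k with ⟨n, rfl | rfl⟩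
  · rw [_root_.zpow_natCast]; exact h1 n
  · rw [_root_.zpow_neg, _root_.zpow_natCast]
    have h2 : (((e01 ^ n : Lam) : M5ˣ)) * (((e01 ^ n)⁻¹ : Lam) : M5ˣ) = 1 := by
      rw [← Subgroup.coe_mul, mul_inv_cancel]; rfl
    have h3 : (((e01 ^ n : Lam) : M5ˣ) : M5) * ((((e01 ^ n)⁻¹ : Lam) : M5ˣ) : M5) = 1 := by
      rw [← Units.val_mul, h2]; rfl
    rw [h1] at h3
    calc ((((e01 ^ n)⁻¹ : Lam) : M5ˣ) : M5)
        = (transvection 0 1 (-(n : ℤ)) * transvection 0 1 (n : ℤ)) *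
            ((((e01 ^ n)⁻¹ : Lam) : M5ˣ) : M5) := by
          rw [transvection_mul_transvection_same 0 1 (by decide)]
          simp
      _ = transvection 0 1 (-(n : ℤ)) := by rw [Matrix.mul_assoc, h3, Matrix.mul_one]

lemma exists_e10 : ∃ b : Lam, ((b : M5ˣ) : M5) = transvection 1 0 3 := by
  obtain ⟨p, hp0, hp1⟩ := two_trans 1 0 (by decide)
  have h1 : ((rho p * e01 * (rho p)⁻¹ : Lam) : M5ˣ) = El 1 0 (by decide) := by
    have h := conj_El p 0 1 (by decide) (by rw [hp0, hp1]; decide)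
    have h' : ((rho p * e01 * (rho p)⁻¹ : Lam) : M5ˣ) =
        perm5 p * El 0 1 (by decide) * (perm5 p)⁻¹ := rfl
    rw [h', h]
    ext : 1
    show transvection ((p : Equiv.Perm (Fin 5)) 0) ((p : Equiv.Perm (Fin 5)) 1) 1 =
      transvection 1 0 1
    rw [hp0, hp1]
  refine ⟨(rho p * e01 * (rho p)⁻¹) ^ 3, ?_⟩
  have h2 : (((rho p * e01 * (rho p)⁻¹ : Lam) ^ 3 : Lam) : M5ˣ) = El 1 0 (by decide) ^ 3 := by
    rw [← h1]; rfl
  rw [h2]
  show ((El 1 0 (by decide) : M5ˣ) ^ 3 : M5ˣ).val = _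
  rw [pow_succ, pow_succ, pow_one]
  show transvection 1 0 1 * transvection 1 0 1 * transvection 1 0 1 = _
  rw [transvection_mul_transvection_same 1 0 (by decide),
    transvection_mul_transvection_same 1 0 (by decide)]
  norm_num

/-- the ping-pong set -/
def BB : Set Lam := {z | rowNorm z 0 < rowNorm z 1}

lemma e01_BB {k : ℤ} (hk : k ≠ 0) {z : Lam} (hz : z ∈ BB) : e01 ^ (3 * k) * z ∉ BB := by
  have hc : (((e01 ^ (3 * k) * z : Lam) : M5ˣ) : M5) =
      transvection 0 1 (3 * k) * ((z : M5ˣ) : M5) := by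
    rw [← coe_e01_zpow]; rfl
  have h1 : rowNorm (e01 ^ (3 * k) * z) 1 = rowNorm z 1 := by
    rw [rowNorm, rowNorm, hc]
    refine Finset.sum_congr rfl fun j _ => ?_
    rw [transvection_mul_apply_of_ne _ _ _ _ (by decide)]
  have h0 : 3 * rowNorm z 1 - rowNorm z 0 ≤ rowNorm (e01 ^ (3 * k) * z) 0 := by
    have hj : ∀ j, 3 * |((z : M5ˣ) : M5) 1 j| - |((z : M5ˣ) : M5) 0 j| ≤
        |(((e01 ^ (3 * k) * z : Lam) : M5ˣ) : M5) 0 j| := by
      intro j
      rw [hc, transvection_mul_apply_same]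
      have hk1 : 1 ≤ |k| := Int.one_le_abs hk
      have e1 : |3 * k * ((z : M5ˣ) : M5) 1 j| = 3 * |k| * |((z : M5ˣ) : M5) 1 j| := by
        rw [abs_mul, abs_mul]; norm_num
      have e2 : |3 * k * ((z : M5ˣ) : M5) 1 j| ≤
          |((z : M5ˣ) : M5) 0 j + 3 * k * ((z : M5ˣ) : M5) 1 j| + |((z : M5ˣ) : M5) 0 j| := by
        have := abs_sub (((z : M5ˣ) : M5) 0 j + 3 * k * ((z : M5ˣ) : M5) 1 j)
          (((z : M5ˣ) : M5) 0 j)
        rwa [add_sub_cancel_left] at this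
      have e3 : |((z : M5ˣ) : M5) 1 j| ≤ |k| * |((z : M5ˣ) : M5) 1 j| := by
        nlinarith [abs_nonneg (((z : M5ˣ) : M5) 1 j)]
      nlinarith
    calc 3 * rowNorm z 1 - rowNorm z 0
        = ∑ j, (3 * |((z : M5ˣ) : M5) 1 j| - |((z : M5ˣ) : M5) 0 j|) := by
          rw [Finset.sum_sub_distrib, ← Finset.mul_sum]; rfl
      _ ≤ _ := Finset.sum_le_sum fun j _ => hj j
  have hp := rowNorm_pos z 1
  have hz' : rowNorm z 0 < rowNorm z 1 := hz
  show ¬ (rowNorm (e01 ^ (3 * k) * z) 0 < rowNorm (e01 ^ (3 * k) * z) 1)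
  rw [h1]
  omega

lemma e10_BB {b : Lam} (hb : ((b : M5ˣ) : M5) = transvection 1 0 3) {z : Lam} (hz : z ∉ BB) :
    b * z ∈ BB := by
  have hc : (((b * z : Lam) : M5ˣ) : M5) = transvection 1 0 3 * ((z : M5ˣ) : M5) := by
    rw [← hb]; rfl
  have h1 : rowNorm (b * z) 0 = rowNorm z 0 := by
    rw [rowNorm, rowNorm, hc]
    refine Finset.sum_congr rfl fun j _ => ?_
    rw [transvection_mul_apply_of_ne _ _ _ _ (by decide)]
  have h0 : 3 * rowNorm z 0 - rowNorm z 1 ≤ rowNorm (b * z) 1 := by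
    have hj : ∀ j, 3 * |((z : M5ˣ) : M5) 0 j| - |((z : M5ˣ) : M5) 1 j| ≤
        |(((b * z : Lam) : M5ˣ) : M5) 1 j| := by
      intro j
      rw [hc, transvection_mul_apply_same]
      have e1 : |3 * ((z : M5ˣ) : M5) 0 j| = 3 * |((z : M5ˣ) : M5) 0 j| := by
        rw [abs_mul]; norm_num
      have e2 : |3 * ((z : M5ˣ) : M5) 0 j| ≤
          |((z : M5ˣ) : M5) 1 j + 3 * ((z : M5ˣ) : M5) 0 j| + |((z : M5ˣ) : M5) 1 j| := by
        have := abs_sub (((z : M5ˣ) : M5) 1 j + 3 * ((z : M5ˣ) : M5) 0 j)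
          (((z : M5ˣ) : M5) 1 j)
        rwa [add_sub_cancel_left] at this
      linarith
    calc 3 * rowNorm z 0 - rowNorm z 1
        = ∑ j, (3 * |((z : M5ˣ) : M5) 0 j| - |((z : M5ˣ) : M5) 1 j|) := by
          rw [Finset.sum_sub_distrib, ← Finset.mul_sum]; rfl
      _ ≤ _ := Finset.sum_le_sum fun j _ => hj j
  have hp := rowNorm_pos z 0
  have hz' : ¬ (rowNorm z 0 < rowNorm z 1) := hz
  show rowNorm (b * z) 0 < rowNorm (b * z) 1
  rw [h1]
  omega

/-- Five elements of `Λ` whose sum has norm at most `2 √5` in the regular representation. -/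
theorem exists_five : ∃ g : Fin 5 → Lam, ‖∑ i, reg Lam (g i)‖ ≤ 2 * Real.sqrt 5 := by
  obtain ⟨b, hb⟩ := exists_e10
  let h : Fin 5 → Lam := fun i => e01 ^ (3 * (i : ℤ))
  refine ⟨fun i => h i * b * (h i)⁻¹, ?_⟩
  have key := norm_sum_reg_le (fun i => h i * b * (h i)⁻¹) (fun i => {z | (h i)⁻¹ * z ∈ BB})
    (by
      intro i j hij
      rw [Set.disjoint_left]
      intro z hz1 hz2
      have e : (h j)⁻¹ * z = e01 ^ (3 * ((i : ℤ) - (j : ℤ))) * ((h i)⁻¹ * z) := by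
        show (e01 ^ (3 * (j : ℤ)))⁻¹ * z = e01 ^ (3 * ((i : ℤ) - (j : ℤ))) *
          ((e01 ^ (3 * (i : ℤ)))⁻¹ * z)
        rw [← mul_assoc, mul_sub, _root_.zpow_sub]
        simp only [← _root_.zpow_neg]
        rw [← _root_.zpow_add, ← _root_.zpow_add]
        congr 2
        ring
      have h3 : (i : ℤ) - (j : ℤ) ≠ 0 := by
        intro h4
        apply hij
        apply Fin.ext
        omega
      have h5 := e01_BB h3 (z := (h i)⁻¹ * z) hz1
      rw [← e] at h5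
      exact h5 hz2)
    (by
      intro i z hz
      show (h i)⁻¹ * (h i * b * (h i)⁻¹ * z) ∈ BB
      have e : (h i)⁻¹ * (h i * b * (h i)⁻¹ * z) = b * ((h i)⁻¹ * z) := by group
      rw [e]
      exact e10_BB hb hz)
  simpa using key

end Pool.Agent.W381.QG
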