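import Pool.Agent.W381.QG.Example
import Pool.Agent.W381.QG.GrpLike

/-!
# Diagonal tori of the twisted group dual
-/

set_option linter.unusedSectionVars false
set_option linter.unusedSimpArgs false

noncomputable section

namespace Pool.Agent.W381.QG

open scoped TensorProduct Matrix

variable {Λ : Type} [Group Λ] (K : Klein Λ)

namespace Klein

section abstract

variable {B : Type} [Ring B] [Algebra ℂ B] (π : GA Λ →ₐ[ℂ] B)

/-- `(π ⊗ π) ∘ Δ_J` -/
def DB : GA Λ →ₐ[ℂ] B ⊗[ℂ] B :=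
  (Algebra.TensorProduct.map π π).comp (K.DeltaJ : GA Λ →ₐ[ℂ] GA Λ ⊗[ℂ] GA Λ)

lemma DB_apply (z : GA Λ) : K.DB π z = Algebra.TensorProduct.map π π (K.DeltaJ z) := rfl

/-- the image of `J` -/
def JB : B ⊗[ℂ] B := Algebra.TensorProduct.map π π K.J

lemma JB_eq : K.JB π = (1/2 : ℂ) • ((1 : B) ⊗ₜ[ℂ] (1 : B) + π K.b ⊗ₜ[ℂ] (1 : B)
    + (1 : B) ⊗ₜ[ℂ] π K.a - π K.b ⊗ₜ[ℂ] π K.a) := by
  simp only [JB, J, map_smul, map_add, map_sub, Algebra.TensorProduct.map_tmul, map_one]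

lemma JBJB : K.JB π * K.JB π = 1 := by
  rw [JB, ← map_mul, JJ, map_one]

/-- the flipped image of `J` -/
def JB' : B ⊗[ℂ] B := Algebra.TensorProduct.comm ℂ B B (K.JB π)

lemma JB'_eq : K.JB' π = (1/2 : ℂ) • ((1 : B) ⊗ₜ[ℂ] (1 : B) + (1 : B) ⊗ₜ[ℂ] π K.b
    + π K.a ⊗ₜ[ℂ] (1 : B) - π K.a ⊗ₜ[ℂ] π K.b) := by
  simp only [JB', JB_eq, map_smul, map_add, map_sub, Algebra.TensorProduct.comm_tmul]

lemma JB'JB' : K.JB' π * K.JB' π = 1 := by
  rw [JB', ← map_mul, JBJB, map_one]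

lemma DB_gel (g : Λ) : K.DB π (gel g) = K.JB π * (π (gel g) ⊗ₜ[ℂ] π (gel g)) * K.JB π := by
  rw [DB_apply, DeltaJ_apply, Delta_gel, map_mul, map_mul, Algebra.TensorProduct.map_tmul]
  rfl

/-- The flip-invariance of `(π ⊗ π) Δ_J` makes the image of `J₂₁ J` commute with all
`π(g) ⊗ π(g)`. -/
lemma R_commute (hflip : ∀ z, Algebra.TensorProduct.comm ℂ B B (K.DB π z) = K.DB π z) (g : Λ) :
    (K.JB' π * K.JB π) * (π (gel g) ⊗ₜ[ℂ] π (gel g)) =
      (π (gel g) ⊗ₜ[ℂ] π (gel g)) * (K.JB' π * K.JB π) := by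
  have h := hflip (gel g)
  rw [DB_gel, map_mul, map_mul, Algebra.TensorProduct.comm_tmul] at h
  change K.JB' π * (π (gel g) ⊗ₜ[ℂ] π (gel g)) * K.JB' π = _ at h
  set X := π (gel g) ⊗ₜ[ℂ] π (gel g)
  set S := K.JB π with hS
  set T := K.JB' π with hT
  have hSS : S * S = 1 := K.JBJB π
  have hTT : T * T = 1 := K.JB'JB' π
  calc T * S * X = T * (S * X * S) * S := by
        simp only [mul_assoc, hSS, mul_one]
    _ = T * (T * X * T) * S := by rw [← h]
    _ = (T * T) * X * T * S := by simp only [mul_assoc]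
    _ = X * (T * S) := by rw [hTT, one_mul, mul_assoc]

/-- Expansion of `J₂₁ J`. -/
lemma R_eq : K.JB' π * K.JB π = (1/4 : ℂ) • (
    (1 : B) ⊗ₜ[ℂ] (1 + π K.a + π K.b + π K.a * π K.b)
    + π K.a ⊗ₜ[ℂ] (1 + π K.a - π K.b - π K.a * π K.b)
    + π K.b ⊗ₜ[ℂ] (1 - π K.a + π K.b - π K.a * π K.b)
    + (π K.a * π K.b) ⊗ₜ[ℂ] (1 - π K.a - π K.b + π K.a * π K.b)) := by
  have haa : π K.a * π K.a = 1 := by rw [← map_mul, aa, map_one]
  have hbb : π K.b * π K.b = 1 := by rw [← map_mul, bb, map_one]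
  have hba : π K.b * π K.a = π K.a * π K.b := by rw [← map_mul, ba, map_mul]
  rw [JB_eq, JB'_eq]
  simp only [smul_mul_smul_comm, mul_add, add_mul, mul_sub, sub_mul,
    Algebra.TensorProduct.tmul_mul_tmul, mul_one, one_mul, mul_assoc, haa, hbb, hba,
    TensorProduct.tmul_add, TensorProduct.tmul_sub]
  module

/-- The twisted coproduct of `B` is untwisted by `J`: the `π(g)` become group-like, hence linearly
independent when distinct. -/
lemma linInd {P : Type} [Group P] (ρ : P →* Λ)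
    (hinj : Function.Injective fun p : P => π (gel (ρ p)))
    (DB' : B →ₐ[ℂ] B ⊗[ℂ] B) (hDB : ∀ z, DB' (π z) = K.DB π z)
    (eB : B →ₐ[ℂ] ℂ) : LinearIndependent ℂ fun p : P => π (gel (ρ p)) := by
  have hD : ∀ g : Λ, K.JB π * DB' (π (gel g)) * K.JB π = π (gel g) ⊗ₜ[ℂ] π (gel g) := by
    intro g
    rw [hDB, DB_gel]
    have hSS : K.JB π * K.JB π = 1 := K.JBJB π
    calc K.JB π * (K.JB π * π (gel g) ⊗ₜ[ℂ] π (gel g) * K.JB π) * K.JB π
        = (K.JB π * K.JB π) * (π (gel g) ⊗ₜ[ℂ] π (gel g)) * (K.JB π * K.JB π) := by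
          simp only [mul_assoc]
      _ = _ := by rw [hSS, one_mul, mul_one]
  refine linearIndependent_groupLike
    (((LinearMap.mulRight ℂ (K.JB π)).comp (LinearMap.mulLeft ℂ (K.JB π))).comp DB'.toLinearMap)
    _ hinj ?_ ?_
  · intro p h
    have h1 : π (gel (ρ p)) * π (gel (ρ p)⁻¹) = 1 := by
      rw [← map_mul, gel_mul, mul_inv_cancel, gel_one, map_one]
    rw [h, zero_mul] at h1
    have h2 := congrArg eB h1
    rw [map_zero, map_one] at h2
    exact zero_ne_one h2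
  · intro p
    exact hD (ρ p)

/-- Key proposition: a quotient with flip-invariant coproduct cannot be injective on a group in
which the Klein four-group is not normal. -/
lemma not_injective {P : Type} [Group P] (ρ : P →* Λ) (x0 y0 : P) (hx : K.x = ρ x0)
    (hy : K.y = ρ y0) (g : P) (hx1 : x0 ≠ 1) (hxy : y0 ≠ x0) (hy1 : y0 ≠ 1)
    (hxy1 : x0 * y0 ≠ 1)
    (h2 : g * x0 ≠ x0 * g) (h3 : g * y0 ≠ x0 * g)
    (h4 : g * (x0 * y0) ≠ x0 * g)
    (DB' : B →ₐ[ℂ] B ⊗[ℂ] B) (hDB : ∀ z, DB' (π z) = K.DB π z)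
    (eB : B →ₐ[ℂ] ℂ)
    (hflip : ∀ z, Algebra.TensorProduct.comm ℂ B B (K.DB π z) = K.DB π z) :
    ¬ Function.Injective fun p : P => π (gel (ρ p)) := by
  classical
  intro hinj
  have hli := K.linInd π ρ hinj DB' hDB eB
  obtain ⟨f, hf⟩ := exists_coord _ hli (x0 * g)
  obtain ⟨f', hf'⟩ := exists_coord _ hli g
  have hR := K.R_commute π hflip (ρ g)
  rw [R_eq] at hR
  have ha : π K.a = π (gel (ρ x0)) := by rw [a, hx]
  have hb : π K.b = π (gel (ρ y0)) := by rw [b, hy]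
  have hone : (1 : B) = π (gel (ρ 1)) := by rw [map_one, gel_one, map_one]
  have hmul : ∀ p q : P, π (gel (ρ p)) * π (gel (ρ q)) = π (gel (ρ (p * q))) := by
    intro p q
    rw [← map_mul, gel_mul, ← map_mul]
  rw [ha, hb, hone, hmul] at hR
  have hR2 := congrArg (TensorProduct.lid ℂ ℂ ∘ₗ TensorProduct.map f f' : B ⊗[ℂ] B →ₗ[ℂ] ℂ) hR
  simp only [smul_mul_assoc, mul_smul_comm, add_mul, mul_add, sub_mul, mul_sub,
    Algebra.TensorProduct.tmul_mul_tmul, hmul, map_smul, map_add, map_sub,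
    LinearMap.comp_apply, LinearEquiv.coe_coe, TensorProduct.map_tmul, TensorProduct.lid_tmul,
    hf, hf'] at hR2
  have h1 : g ≠ x0 * g := fun h => hx1 (by simpa using h.symm)
  simp [hx1, hy1, hxy, hxy1, h1, h2, h3, h4] at hR2

end abstract

section matrix

variable {n : Type} [Fintype n] [DecidableEq n]

/-- scalar matrix over a complex algebra -/
def scM (A : Type*) [Ring A] [Algebra ℂ A] (T : Matrix n n ℂ) : Matrix n n A :=
  T.map (algebraMap ℂ A)

lemma scM_mul (A : Type*) [Ring A] [Algebra ℂ A] (S T : Matrix n n ℂ) :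
    scM A (S * T) = scM A S * scM A T := by
  simp [scM, Matrix.map_mul]

lemma scM_one (A : Type*) [Ring A] [Algebra ℂ A] : scM A (1 : Matrix n n ℂ) = 1 := by
  simp [scM]

lemma scM_map {A B : Type*} [Ring A] [Algebra ℂ A] [Ring B] [Algebra ℂ B] (φ : A →ₐ[ℂ] B)
    (T : Matrix n n ℂ) : (scM A T).map φ = scM B T := by
  ext i j
  simp [scM]

lemma scM_conjTranspose (A : Type*) [Ring A] [StarRing A] [Algebra ℂ A] [StarModule ℂ A]
    (T : Matrix n n ℂ) : (scM A T)ᴴ = scM A Tᴴ := by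
  ext i j
  simp only [scM, Matrix.conjTranspose_apply, Matrix.map_apply]
  rw [algebraMap_star_comm]

/-- `v = Q w Q*` over the group algebra -/
def vA (w : Matrix n n (GA Λ)) (Q : Matrix n n ℂ) : Matrix n n (GA Λ) :=
  scM (GA Λ) Q * w * scM (GA Λ) Qᴴ

variable {w : Matrix n n (GA Λ)} (hw : K.IsRep w) {Q : Matrix n n ℂ} (hQ : Qᴴ * Q = 1)
  (hQ' : Q * Qᴴ = 1)

include hw

lemma w_left : wᴴ * w = 1 := by
  refine Matrix.ext fun i j => ?_
  rw [Matrix.mul_apply, Matrix.one_apply]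
  exact hw.col i j

lemma w_right : w * wᴴ = 1 := by
  refine Matrix.ext fun i j => ?_
  rw [Matrix.mul_apply, Matrix.one_apply]
  exact hw.row i j

include hQ hQ'

omit hw in
lemma scQ_left : scM (GA Λ) Qᴴ * scM (GA Λ) Q = 1 := by rw [← scM_mul, hQ, scM_one]

omit hw in
lemma scQ_right : scM (GA Λ) Q * scM (GA Λ) Qᴴ = 1 := by rw [← scM_mul, hQ', scM_one]

lemma vA_left : (vA w Q)ᴴ * vA w Q = 1 := by
  have h1 := scQ_left (Λ := Λ) hQ hQ'
  have h2 := scQ_right (Λ := Λ) hQ hQ'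
  have h3 := K.w_left hw
  rw [vA, Matrix.conjTranspose_mul, Matrix.conjTranspose_mul, scM_conjTranspose,
    scM_conjTranspose, Matrix.conjTranspose_conjTranspose]
  calc scM (GA Λ) Q * (wᴴ * scM (GA Λ) Qᴴ) * (scM (GA Λ) Q * w * scM (GA Λ) Qᴴ)
      = scM (GA Λ) Q * (wᴴ * ((scM (GA Λ) Qᴴ * scM (GA Λ) Q) * w)) * scM (GA Λ) Qᴴ := by
        simp only [Matrix.mul_assoc]
    _ = 1 := by rw [h1, Matrix.one_mul, h3, Matrix.mul_one, h2]

lemma vA_right : vA w Q * (vA w Q)ᴴ = 1 := by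
  have h1 := scQ_left (Λ := Λ) hQ hQ'
  have h2 := scQ_right (Λ := Λ) hQ hQ'
  have h3 := K.w_right hw
  rw [vA, Matrix.conjTranspose_mul, Matrix.conjTranspose_mul, scM_conjTranspose,
    scM_conjTranspose, Matrix.conjTranspose_conjTranspose]
  calc scM (GA Λ) Q * w * scM (GA Λ) Qᴴ * (scM (GA Λ) Q * (wᴴ * scM (GA Λ) Qᴴ))
      = scM (GA Λ) Q * (w * ((scM (GA Λ) Qᴴ * scM (GA Λ) Q) * wᴴ)) * scM (GA Λ) Qᴴ := by
        simp only [Matrix.mul_assoc]
    _ = 1 := by rw [h1, Matrix.one_mul, h3, Matrix.mul_one, h2]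

omit hw in
/-- `w` is recovered from `v`. -/
lemma w_eq : w = scM (GA Λ) Qᴴ * vA w Q * scM (GA Λ) Q := by
  have h1 := scQ_left (Λ := Λ) hQ hQ'
  rw [vA]
  calc w = 1 * w * 1 := by rw [Matrix.one_mul, Matrix.mul_one]
    _ = _ := by rw [← h1]; simp only [Matrix.mul_assoc]

lemma vA_counit (i j : n) : eps Λ (vA w Q i j) = if i = j then 1 else 0 := by
  have h : (vA w Q).map (eps Λ : GA Λ →ₐ[ℂ] ℂ) = 1 := by
    rw [vA, Matrix.map_mul, Matrix.map_mul, scM_map, scM_map]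
    have h1 : w.map (eps Λ : GA Λ →ₐ[ℂ] ℂ) = 1 := by
      ext i j
      rw [Matrix.map_apply, Matrix.one_apply]
      exact hw.counit i j
    rw [h1, Matrix.mul_one, ← scM_mul, hQ', scM_one]
  have h2 := congrFun (congrFun h i) j
  rw [Matrix.map_apply, Matrix.one_apply] at h2
  exact h2

lemma vA_comul (i j : n) : K.DeltaJ (vA w Q i j) = ∑ k, vA w Q i k ⊗ₜ[ℂ] vA w Q k j := by
  let L : GA Λ →ₐ[ℂ] GA Λ ⊗[ℂ] GA Λ := Algebra.TensorProduct.includeLeft
  let R : GA Λ →ₐ[ℂ] GA Λ ⊗[ℂ] GA Λ := Algebra.TensorProduct.includeRight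
  have h0 : ∀ z : Matrix n n (GA Λ), ∀ i j, ((z.map L) * (z.map R)) i j =
      ∑ k, z i k ⊗ₜ[ℂ] z k j := by
    intro z i j
    rw [Matrix.mul_apply]
    refine Finset.sum_congr rfl fun k _ => ?_
    show (z i k ⊗ₜ[ℂ] (1 : GA Λ)) * ((1 : GA Λ) ⊗ₜ[ℂ] z k j) = _
    rw [Algebra.TensorProduct.tmul_mul_tmul, mul_one, one_mul]
  have h1 : w.map (K.DeltaJ : GA Λ →ₐ[ℂ] GA Λ ⊗[ℂ] GA Λ) = w.map L * w.map R := by
    ext i j
    rw [h0]
    exact hw.comul i j
  have h2 : (vA w Q).map (K.DeltaJ : GA Λ →ₐ[ℂ] GA Λ ⊗[ℂ] GA Λ) =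
      (vA w Q).map L * (vA w Q).map R := by
    rw [vA, Matrix.map_mul, Matrix.map_mul, Matrix.map_mul, Matrix.map_mul, Matrix.map_mul,
      Matrix.map_mul, scM_map, scM_map, scM_map, scM_map, scM_map, scM_map, h1]
    have h3 : scM (GA Λ ⊗[ℂ] GA Λ) Qᴴ * scM (GA Λ ⊗[ℂ] GA Λ) Q = 1 := by
      rw [← scM_mul, hQ, scM_one]
    calc scM (GA Λ ⊗[ℂ] GA Λ) Q * (w.map L * w.map R) * scM (GA Λ ⊗[ℂ] GA Λ) Qᴴ
        = scM (GA Λ ⊗[ℂ] GA Λ) Q * (w.map L * 1 * w.map R) * scM (GA Λ ⊗[ℂ] GA Λ) Qᴴ := by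
          rw [Matrix.mul_one]
      _ = _ := by rw [← h3]; simp only [Matrix.mul_assoc]
  have h4 := congrFun (congrFun h2 i) j
  rw [h0, Matrix.map_apply] at h4
  exact h4

/-- the relations `v_ij = 0` for `i ≠ j` -/
def torRel (w : Matrix n n (GA Λ)) (Q : Matrix n n ℂ) : GA Λ → GA Λ → Prop :=
  fun z z' => ∃ i j, i ≠ j ∧ z = vA w Q i j ∧ z' = 0

/-- the algebraic quotient by the `v_ij`, `i ≠ j` -/
abbrev QuotB (w : Matrix n n (GA Λ)) (Q : Matrix n n ℂ) : Type := RingQuot (torRel w Q)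

/-- the quotient map -/
def piB (w : Matrix n n (GA Λ)) (Q : Matrix n n ℂ) : GA Λ →ₐ[ℂ] QuotB w Q :=
  RingQuot.mkAlgHom ℂ (torRel w Q)

omit hw hQ hQ' in
lemma piB_v {i j : n} (hij : i ≠ j) : piB w Q (vA w Q i j) = 0 := by
  have h : torRel w Q (vA w Q i j) 0 := ⟨i, j, hij, rfl, rfl⟩
  have := RingQuot.mkAlgHom_rel ℂ h
  rw [map_zero] at this
  exact this

lemma piB_v_mul_star (i : n) : piB w Q (vA w Q i i) * piB w Q (star (vA w Q i i)) = 1 := by
  have h := congrFun (congrFun (K.vA_right hw hQ hQ') i) i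
  rw [Matrix.mul_apply, Matrix.one_apply, if_pos rfl] at h
  have h2 := congrArg (piB w Q) h
  rw [map_sum, map_one] at h2
  rw [← h2, Finset.sum_eq_single i]
  · rw [map_mul]; rfl
  · intro k _ hk
    rw [map_mul, piB_v (Ne.symm hk), zero_mul]
  · simp

lemma piB_star_mul_v (i : n) : piB w Q (star (vA w Q i i)) * piB w Q (vA w Q i i) = 1 := by
  have h := congrFun (congrFun (K.vA_left hw hQ hQ') i) i
  rw [Matrix.mul_apply, Matrix.one_apply, if_pos rfl] at h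
  have h2 := congrArg (piB w Q) h
  rw [map_sum, map_one] at h2
  rw [← h2, Finset.sum_eq_single i]
  · rw [map_mul]; rfl
  · intro k _ hk
    rw [map_mul, piB_v hk, mul_zero]
  · simp

lemma piB_star_v {i j : n} (hij : i ≠ j) : piB w Q (star (vA w Q i j)) = 0 := by
  -- `(v v*)_{ji} = 0` reads `v_jj * star v_ij = 0` in the quotient
  have h := congrFun (congrFun (K.vA_right hw hQ hQ') j) i
  rw [Matrix.mul_apply, Matrix.one_apply, if_neg (Ne.symm hij)] at h
  have h2 := congrArg (piB w Q) h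
  rw [map_sum, map_zero, Finset.sum_eq_single j] at h2
  · rw [map_mul] at h2
    have h3 := K.piB_star_mul_v hw hQ hQ' j
    calc piB w Q (star (vA w Q i j))
        = (piB w Q (star (vA w Q j j)) * piB w Q (vA w Q j j)) * piB w Q (star (vA w Q i j)) := by
          rw [h3, one_mul]
      _ = piB w Q (star (vA w Q j j)) * (piB w Q (vA w Q j j) * piB w Q (star (vA w Q i j))) := by
          rw [mul_assoc]
      _ = 0 := by
          rw [show piB w Q (vA w Q j j) * piB w Q (star (vA w Q i j)) = 0 from h2, mul_zero]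
  · intro k _ hk
    rw [map_mul, piB_v (Ne.symm hk), zero_mul]
  · simp

lemma DB_v (i j : n) : K.DB (piB w Q) (vA w Q i j) =
    ∑ k, piB w Q (vA w Q i k) ⊗ₜ[ℂ] piB w Q (vA w Q k j) := by
  rw [DB_apply, K.vA_comul hw hQ hQ', map_sum]
  simp only [Algebra.TensorProduct.map_tmul]

lemma DB_v_off {i j : n} (hij : i ≠ j) : K.DB (piB w Q) (vA w Q i j) = 0 := by
  rw [K.DB_v hw hQ hQ']
  refine Finset.sum_eq_zero fun k _ => ?_
  by_cases hk : i = k
  · subst hk; rw [piB_v hij, TensorProduct.tmul_zero]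
  · rw [piB_v hk, TensorProduct.zero_tmul]

lemma DB_v_diag (i : n) : K.DB (piB w Q) (vA w Q i i) =
    piB w Q (vA w Q i i) ⊗ₜ[ℂ] piB w Q (vA w Q i i) := by
  rw [K.DB_v hw hQ hQ', Finset.sum_eq_single i]
  · intro k _ hk
    rw [piB_v hk, TensorProduct.tmul_zero]
  · simp

lemma DB_star_v (i j : n) : K.DB (piB w Q) (star (vA w Q i j)) =
    ∑ k, piB w Q (star (vA w Q i k)) ⊗ₜ[ℂ] piB w Q (star (vA w Q k j)) := by
  rw [DB_apply, StarHomClass.map_star, K.vA_comul hw hQ hQ', star_sum, map_sum]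
  simp only [TensorProduct.star_tmul, Algebra.TensorProduct.map_tmul]

lemma DB_star_v_off {i j : n} (hij : i ≠ j) : K.DB (piB w Q) (star (vA w Q i j)) = 0 := by
  rw [K.DB_star_v hw hQ hQ']
  refine Finset.sum_eq_zero fun k _ => ?_
  by_cases hk : i = k
  · subst hk; rw [K.piB_star_v hw hQ hQ' hij, TensorProduct.tmul_zero]
  · rw [K.piB_star_v hw hQ hQ' hk, TensorProduct.zero_tmul]

lemma DB_star_v_diag (i : n) : K.DB (piB w Q) (star (vA w Q i i)) =
    piB w Q (star (vA w Q i i)) ⊗ₜ[ℂ] piB w Q (star (vA w Q i i)) := by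
  rw [K.DB_star_v hw hQ hQ', Finset.sum_eq_single i]
  · intro k _ hk
    rw [K.piB_star_v hw hQ hQ' hk, TensorProduct.tmul_zero]
  · simp

/-- the generating property of a matrix over the group algebra -/
def Gen (w : Matrix n n (GA Λ)) : Prop :=
  ∀ S : Subalgebra ℂ (GA Λ), (∀ i j, w i j ∈ S) → (∀ i j, star (w i j) ∈ S) → S = ⊤

/-- The coproduct on the quotient is flip-invariant. -/
lemma flip_inv (hgen : Gen w) (z : GA Λ) :
    Algebra.TensorProduct.comm ℂ (QuotB w Q) (QuotB w Q) (K.DB (piB w Q) z) =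
      K.DB (piB w Q) z := by
  let f1 : GA Λ →ₐ[ℂ] QuotB w Q ⊗[ℂ] QuotB w Q := K.DB (piB w Q)
  let f2 : GA Λ →ₐ[ℂ] QuotB w Q ⊗[ℂ] QuotB w Q :=
    ((Algebra.TensorProduct.comm ℂ (QuotB w Q) (QuotB w Q)) :
      QuotB w Q ⊗[ℂ] QuotB w Q →ₐ[ℂ] QuotB w Q ⊗[ℂ] QuotB w Q).comp f1
  have hv : ∀ i j, vA w Q i j ∈ AlgHom.equalizer f2 f1 := by
    intro i j
    rw [AlgHom.mem_equalizer]
    show Algebra.TensorProduct.comm ℂ _ _ (K.DB (piB w Q) _) = K.DB (piB w Q) _
    by_cases hij : i = j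
    · subst hij
      rw [K.DB_v_diag hw hQ hQ', Algebra.TensorProduct.comm_tmul]
    · rw [K.DB_v_off hw hQ hQ' hij, map_zero]
  have hv' : ∀ i j, star (vA w Q i j) ∈ AlgHom.equalizer f2 f1 := by
    intro i j
    rw [AlgHom.mem_equalizer]
    show Algebra.TensorProduct.comm ℂ _ _ (K.DB (piB w Q) _) = K.DB (piB w Q) _
    by_cases hij : i = j
    · subst hij
      rw [K.DB_star_v_diag hw hQ hQ', Algebra.TensorProduct.comm_tmul]
    · rw [K.DB_star_v_off hw hQ hQ' hij, map_zero]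
  have hS := hgen (AlgHom.equalizer f2 f1) ?_ ?_
  · have hz : z ∈ AlgHom.equalizer f2 f1 := by rw [hS]; trivial
    exact hz
  · intro i j
    have h := congrFun (congrFun (w_eq (w := w) hQ hQ') i) j
    rw [h, Matrix.mul_apply]
    refine sum_mem fun k _ => mul_mem ?_ (Subalgebra.algebraMap_mem _ _)
    rw [Matrix.mul_apply]
    exact sum_mem fun l _ => mul_mem (Subalgebra.algebraMap_mem _ _) (hv _ _)
  · intro i j
    have h := congrFun (congrFun (w_eq (w := w) hQ hQ') i) j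
    rw [h, Matrix.mul_apply, star_sum]
    refine sum_mem fun k _ => ?_
    rw [star_mul, Matrix.mul_apply, star_sum]
    refine mul_mem ?_ (sum_mem fun l _ => ?_)
    · rw [scM, Matrix.map_apply, ← algebraMap_star_comm]
      exact Subalgebra.algebraMap_mem _ _
    · rw [star_mul, scM, Matrix.map_apply, ← algebraMap_star_comm]
      exact mul_mem (hv' _ _) (Subalgebra.algebraMap_mem _ _)

/-- the coproduct of the quotient -/
def comulQ : QuotB w Q →ₐ[ℂ] QuotB w Q ⊗[ℂ] QuotB w Q :=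
  RingQuot.liftAlgHom ℂ ⟨K.DB (piB w Q), by
    rintro _ _ ⟨i, j, hij, rfl, rfl⟩
    rw [K.DB_v_off hw hQ hQ' hij, map_zero]⟩

lemma comulQ_piB (z : GA Λ) : K.comulQ hw hQ hQ' (piB w Q z) = K.DB (piB w Q) z := by
  exact RingQuot.liftAlgHom_mkAlgHom_apply ℂ _ _ z

/-- the counit of the quotient -/
def epsQ : QuotB w Q →ₐ[ℂ] ℂ :=
  RingQuot.liftAlgHom ℂ ⟨(eps Λ : GA Λ →ₐ[ℂ] ℂ), by
    rintro _ _ ⟨i, j, hij, rfl, rfl⟩
    have := K.vA_counit hw hQ hQ' i j
    rw [if_neg hij] at this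
    rw [map_zero]
    exact this⟩

end matrix

/-- `(0 1)(2 3)` -/
def x0 : alternatingGroup (Fin 5) := ⟨Equiv.swap 0 1 * Equiv.swap 2 3,
  by rw [Equiv.Perm.mem_alternatingGroup]; decide⟩
/-- `(0 2)(1 3)` -/
def y0 : alternatingGroup (Fin 5) := ⟨Equiv.swap 0 2 * Equiv.swap 1 3,
  by rw [Equiv.Perm.mem_alternatingGroup]; decide⟩
/-- `(0 1)(1 4)` -/
def g0 : alternatingGroup (Fin 5) := ⟨Equiv.swap 0 1 * Equiv.swap 1 4,
  by rw [Equiv.Perm.mem_alternatingGroup]; decide⟩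

/-- Let `A₅ → Λ` be a homomorphism with the Klein four-group in its image.  In every diagonal
quotient, `A₅` becomes trivial. -/
lemma pi_eq_one {n : Type} [Fintype n] [DecidableEq n] {w : Matrix n n (GA Λ)} (hw : K.IsRep w)
    {Q : Matrix n n ℂ} (hQ : Qᴴ * Q = 1) (hQ' : Q * Qᴴ = 1) (hgen : Gen w)
    (ρ : alternatingGroup (Fin 5) →* Λ) (hx : K.x = ρ x0) (hy : K.y = ρ y0)
    (p : alternatingGroup (Fin 5)) : piB w Q (gel (ρ p)) = 1 := by
  let f : alternatingGroup (Fin 5) →* QuotB w Q :=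
    { toFun := fun p => piB w Q (gel (ρ p))
      map_one' := by rw [map_one, gel_one, map_one]
      map_mul' := fun p q => by rw [map_mul, ← gel_mul, map_mul] }
  have hsimple : IsSimpleGroup (alternatingGroup (Fin 5)) :=
    alternatingGroup.isSimpleGroup (by simp)
  rcases hsimple.eq_bot_or_eq_top_of_normal (f.toHomUnits).ker inferInstance with h | h
  · exfalso
    have hinj : Function.Injective f.toHomUnits := (MonoidHom.ker_eq_bot_iff _).1 h
    refine K.not_injective (piB w Q) ρ x0 y0 hx hy g0 (by decide) (by decide) (by decide)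
      (by decide) (by decide) (by decide) (by decide) (K.comulQ hw hQ hQ')
      (K.comulQ_piB hw hQ hQ') (K.epsQ hw hQ hQ') (K.flip_inv hw hQ hQ' hgen) ?_
    intro p q hpq
    apply hinj
    ext
    exact hpq
  · have hp : p ∈ (f.toHomUnits).ker := by rw [h]; trivial
    rw [MonoidHom.mem_ker] at hp
    have := congrArg (fun z : (QuotB w Q)ˣ => (z : QuotB w Q)) hp
    exact this

/-- **Triviality of the diagonal tori.** If moreover `A₅` normally generates `Λ`, then every ring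
homomorphism killing the off-diagonal entries of `v = Q w Q*` sends the diagonal ones to `1`. -/
theorem diag_eq_one {n : Type} [Fintype n] [DecidableEq n] {w : Matrix n n (GA Λ)}
    (hw : K.IsRep w) {Q : Matrix n n ℂ} (hQ : Qᴴ * Q = 1) (hQ' : Q * Qᴴ = 1) (hgen : Gen w)
    (ρ : alternatingGroup (Fin 5) →* Λ) (hx : K.x = ρ x0) (hy : K.y = ρ y0)
    (hnorm : ∀ (M : Type) [Monoid M] (f : Λ →* M), (∀ p, f (ρ p) = 1) → ∀ g, f g = 1)
    {R : Type*} [Ring R] (φ : GA Λ →+* R) (hφ : ∀ i j, i ≠ j → φ (vA w Q i j) = 0) (i : n) :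
    φ (vA w Q i i) = 1 := by
  -- in the universal quotient all group elements are trivial
  have h1 : ∀ g : Λ, piB w Q (gel g) = 1 :=
    hnorm (QuotB w Q)
      { toFun := fun g => piB w Q (gel g)
        map_one' := by rw [gel_one, map_one]
        map_mul' := fun p q => by rw [← gel_mul, map_mul] }
      (K.pi_eq_one hw hQ hQ' hgen ρ hx hy)
  have h2 : ∀ z : GA Λ, piB w Q z = algebraMap ℂ (QuotB w Q) (eps Λ z) := by
    intro z
    induction z using MonoidAlgebra.induction_linear with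
    | zero => simp
    | add a b ha hb => rw [map_add, map_add, map_add, ha, hb]
    | single g c => rw [single_eq_smul_gel, map_smul, map_smul, h1, eps_gel, smul_eq_mul,
        mul_one, Algebra.algebraMap_eq_smul_one]
  have h3 : piB w Q (vA w Q i i) = 1 := by
    rw [h2, K.vA_counit hw hQ hQ', if_pos rfl, map_one]
  -- `φ` factors through the universal quotient
  have hφ' : ∀ ⦃a b : GA Λ⦄, torRel w Q a b → φ a = φ b := by
    rintro _ _ ⟨i, j, hij, rfl, rfl⟩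
    rw [hφ i j hij, map_zero]
  have h4 : RingQuot.lift ⟨φ, hφ'⟩ (piB w Q (vA w Q i i)) = φ (vA w Q i i) := by
    have h5 : piB w Q (vA w Q i i) = RingQuot.mkRingHom (torRel w Q) (vA w Q i i) := by
      rw [← RingQuot.mkAlgHom_coe ℂ]; rfl
    rw [h5, RingQuot.lift_mkRingHom_apply]
  rw [← h4, h3, map_one]

end Klein

end Pool.Agent.W381.QG
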