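import Pool.Agent.W381.QG.GA

/-!
# The cocycle twist of a group algebra by the Klein four-group

For commuting involutions `x, y` of a group `Λ` we twist the comultiplication of `ℂ[Λ]` by the
unitary `2`-cocycle `J = ½(1 + y) ⊗ 1 + ½(1 - y) ⊗ x`, and for each `g` in `Λ` we write down a
4-dimensional unitary corepresentation `U g`.
-/

set_option linter.unusedSectionVars false
set_option linter.unusedSimpArgs false

noncomputable section

namespace Pool.Agent.W381.QG

open scoped TensorProduct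

/-- Two commuting involutions. -/
structure Klein (Λ : Type) [Group Λ] where
  /-- first involution -/
  x : Λ
  /-- second involution -/
  y : Λ
  hx : x * x = 1
  hy : y * y = 1
  hxy : x * y = y * x

variable {Λ : Type} [Group Λ] (K : Klein Λ)

namespace Klein

/-- `x` in the group algebra -/
def a : GA Λ := gel K.x
/-- `y` in the group algebra -/
def b : GA Λ := gel K.y

lemma aa : K.a * K.a = 1 := by rw [a, gel_mul, K.hx, gel_one]
lemma bb : K.b * K.b = 1 := by rw [b, gel_mul, K.hy, gel_one]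
lemma ba : K.b * K.a = K.a * K.b := by rw [a, b, gel_mul, gel_mul, K.hxy]
lemma aa' (z : GA Λ) : K.a * (K.a * z) = z := by rw [← mul_assoc, K.aa, one_mul]
lemma bb' (z : GA Λ) : K.b * (K.b * z) = z := by rw [← mul_assoc, K.bb, one_mul]
lemma ba' (z : GA Λ) : K.b * (K.a * z) = K.a * (K.b * z) := by
  rw [← mul_assoc, K.ba, mul_assoc]

lemma x_inv : K.x⁻¹ = K.x := inv_eq_of_mul_eq_one_left K.hx
lemma y_inv : K.y⁻¹ = K.y := inv_eq_of_mul_eq_one_left K.hy

@[simp] lemma star_a : star K.a = K.a := by rw [a, star_gel, K.x_inv]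
@[simp] lemma star_b : star K.b = K.b := by rw [b, star_gel, K.y_inv]

/-- The 2×2 matrix `𝐗` over `ℂ[V]`. -/
def X : Fin 2 → Fin 2 → GA Λ :=
  ![![(1/2 : ℂ) • (1 + K.a), (1/2 : ℂ) • (K.b - K.a * K.b)],
    ![(1/2 : ℂ) • (1 - K.a), (1/2 : ℂ) • (K.b + K.a * K.b)]]

lemma X00 : K.X 0 0 = (1/2 : ℂ) • (1 + K.a) := rfl
lemma X01 : K.X 0 1 = (1/2 : ℂ) • (K.b - K.a * K.b) := rfl
lemma X10 : K.X 1 0 = (1/2 : ℂ) • (1 - K.a) := rfl
lemma X11 : K.X 1 1 = (1/2 : ℂ) • (K.b + K.a * K.b) := rfl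

lemma star_X (i j : Fin 2) : star (K.X i j) = K.X i j := by
  fin_cases i <;> fin_cases j <;>
  simp [X00, X01, X10, X11, star_mul, K.ba]

lemma X_row (i j : Fin 2) : ∑ k, K.X i k * K.X j k = if i = j then 1 else 0 := by
  fin_cases i <;> fin_cases j <;>
  simp only [Fin.sum_univ_two, Fin.zero_eta, Fin.mk_one, X00, X01, X10, X11, smul_mul_smul_comm,
    mul_add, add_mul, mul_sub, sub_mul, mul_one, one_mul, mul_assoc, aa, bb, ba, aa', bb', ba',
    if_true, if_false, one_ne_zero, zero_ne_one] <;> module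

lemma X_col (i j : Fin 2) : ∑ k, K.X k i * K.X k j = if i = j then 1 else 0 := by
  fin_cases i <;> fin_cases j <;>
  simp only [Fin.sum_univ_two, Fin.zero_eta, Fin.mk_one, X00, X01, X10, X11, smul_mul_smul_comm,
    mul_add, add_mul, mul_sub, sub_mul, mul_one, one_mul, mul_assoc, aa, bb, ba, aa', bb', ba',
    if_true, if_false, one_ne_zero, zero_ne_one] <;> module

lemma X_commute (i j k l : Fin 2) : K.X i j * K.X k l = K.X k l * K.X i j := by
  fin_cases i <;> fin_cases j <;> fin_cases k <;> fin_cases l <;>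
  simp only [Fin.zero_eta, Fin.mk_one, X00, X01, X10, X11, smul_mul_smul_comm,
    mul_add, add_mul, mul_sub, sub_mul, mul_one, one_mul, mul_assoc, aa, bb, ba, aa', bb', ba'] <;>
    module

/-- the element `W = ½(1 + y) + ½(1 - y) x` -/
def W : GA Λ := (1/2 : ℂ) • (1 + K.b + K.a - K.a * K.b)

lemma WW : K.W * K.W = 1 := by
  simp only [W, smul_mul_smul_comm,
    mul_add, add_mul, mul_sub, sub_mul, mul_one, one_mul, mul_assoc, aa, bb, ba, aa', bb', ba']
  module

@[simp] lemma star_W : star K.W = K.W := by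
  simp [W, star_mul, K.ba]

lemma W_X (i j : Fin 2) : K.W * K.X i j = K.X j i := by
  fin_cases i <;> fin_cases j <;>
  simp only [Fin.zero_eta, Fin.mk_one, X00, X01, X10, X11, W, smul_mul_smul_comm,
    mul_add, add_mul, mul_sub, sub_mul, mul_one, one_mul, mul_assoc, aa, bb, ba, aa', bb', ba'] <;>
    module

lemma X_W (i j : Fin 2) : K.X i j * K.W = K.X j i := by
  fin_cases i <;> fin_cases j <;>
  simp only [Fin.zero_eta, Fin.mk_one, X00, X01, X10, X11, W, smul_mul_smul_comm,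
    mul_add, add_mul, mul_sub, sub_mul, mul_one, one_mul, mul_assoc, aa, bb, ba, aa', bb', ba'] <;>
    module

end Klein

/-- The usual comultiplication `g ↦ g ⊗ g` of the group algebra. -/
def Delta (Λ : Type) [Group Λ] : GA Λ →⋆ₐ[ℂ] GA Λ ⊗[ℂ] GA Λ :=
  liftStar
    { toFun := fun g => gel g ⊗ₜ[ℂ] gel g
      map_one' := rfl
      map_mul' := fun g h => by
        rw [Algebra.TensorProduct.tmul_mul_tmul, gel_mul] }
    (fun g => by
      show star (gel g ⊗ₜ[ℂ] gel g) = gel g⁻¹ ⊗ₜ[ℂ] gel g⁻¹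
      rw [TensorProduct.star_tmul, star_gel])

@[simp] lemma Delta_gel (g : Λ) : Delta Λ (gel g) = gel g ⊗ₜ[ℂ] gel g := by
  rw [Delta, liftStar_gel]; rfl

/-- The counit of the group algebra. -/
def eps (Λ : Type) [Group Λ] : GA Λ →⋆ₐ[ℂ] ℂ :=
  liftStar (1 : Λ →* ℂ) (fun g => by simp)

@[simp] lemma eps_gel (g : Λ) : eps Λ (gel g) = 1 := by
  rw [eps, liftStar_gel]; rfl

namespace Klein

/-- The 2-cocycle `J`. -/
def J : GA Λ ⊗[ℂ] GA Λ :=
  (1/2 : ℂ) • ((1 : GA Λ) ⊗ₜ[ℂ] (1 : GA Λ) + K.b ⊗ₜ[ℂ] (1 : GA Λ) + (1 : GA Λ) ⊗ₜ[ℂ] K.a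
    - K.b ⊗ₜ[ℂ] K.a)

@[simp] lemma star_J : star K.J = K.J := by
  simp [J, TensorProduct.star_tmul]

lemma JJ : K.J * K.J = 1 := by
  simp only [J, smul_mul_smul_comm, mul_add, add_mul, mul_sub, sub_mul,
    Algebra.TensorProduct.tmul_mul_tmul, mul_one, one_mul, mul_assoc, aa, bb, ba, aa', bb', ba']
  rw [Algebra.TensorProduct.one_def]
  module

lemma Delta_a : Delta Λ K.a = K.a ⊗ₜ[ℂ] K.a := Delta_gel _
lemma Delta_b : Delta Λ K.b = K.b ⊗ₜ[ℂ] K.b := Delta_gel _

lemma J_Delta_X (i j : Fin 2) :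
    K.J * Delta Λ (K.X i j) = ∑ k, K.X i k ⊗ₜ[ℂ] K.X k j := by
  fin_cases i <;> fin_cases j <;>
  simp only [Fin.sum_univ_two, Fin.zero_eta, Fin.mk_one, X00, X01, X10, X11, J, map_smul, map_add,
    map_sub, map_mul, map_one, Delta_a, Delta_b, Algebra.TensorProduct.one_def,
    TensorProduct.tmul_add, TensorProduct.add_tmul, TensorProduct.tmul_sub, TensorProduct.sub_tmul,
    TensorProduct.tmul_smul, ← TensorProduct.smul_tmul',
    smul_mul_smul_comm, mul_add, add_mul, mul_sub, sub_mul,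
    Algebra.TensorProduct.tmul_mul_tmul, mul_one, one_mul, mul_assoc, aa, bb, ba, aa', bb', ba'] <;>
  module

lemma Delta_X_J (i j : Fin 2) :
    Delta Λ (K.X i j) * K.J = ∑ k, K.X i k ⊗ₜ[ℂ] K.X k j := by
  fin_cases i <;> fin_cases j <;>
  simp only [Fin.sum_univ_two, Fin.zero_eta, Fin.mk_one, X00, X01, X10, X11, J, map_smul, map_add,
    map_sub, map_mul, map_one, Delta_a, Delta_b, Algebra.TensorProduct.one_def,
    TensorProduct.tmul_add, TensorProduct.add_tmul, TensorProduct.tmul_sub, TensorProduct.sub_tmul,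
    TensorProduct.tmul_smul, ← TensorProduct.smul_tmul',
    smul_mul_smul_comm, mul_add, add_mul, mul_sub, sub_mul,
    Algebra.TensorProduct.tmul_mul_tmul, mul_one, one_mul, mul_assoc, aa, bb, ba, aa', bb', ba'] <;>
  module

/-- The twisted comultiplication `a ↦ J Δ(a) J*`. -/
def DeltaJ : GA Λ →⋆ₐ[ℂ] GA Λ ⊗[ℂ] GA Λ where
  toFun z := K.J * Delta Λ z * K.J
  map_one' := by rw [map_one, mul_one, K.JJ]
  map_mul' z w := by
    rw [map_mul]
    calc K.J * (Delta Λ z * Delta Λ w) * K.J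
        = K.J * Delta Λ z * 1 * Delta Λ w * K.J := by simp only [mul_one, mul_assoc]
      _ = _ := by rw [← K.JJ]; simp only [mul_assoc]
  map_zero' := by simp
  map_add' z w := by simp [mul_add, add_mul]
  commutes' c := by
    rw [AlgHomClass.commutes, ← Algebra.commutes, mul_assoc, K.JJ, mul_one]
  map_star' z := by
    simp only [star_mul, star_J, StarHomClass.map_star, mul_assoc]

lemma DeltaJ_apply (z : GA Λ) : K.DeltaJ z = K.J * Delta Λ z * K.J := rfl

/-- The 4-dimensional corepresentation attached to a group element. -/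
def U (g : Λ) (i j : Fin 2 × Fin 2) : GA Λ := K.X i.1 j.1 * gel g * K.X i.2 j.2

lemma star_U (g : Λ) (i j : Fin 2 × Fin 2) :
    star (K.U g i j) = K.X i.2 j.2 * gel g⁻¹ * K.X i.1 j.1 := by
  simp [U, star_mul, star_X, mul_assoc]

lemma U_comul (g : Λ) (i j : Fin 2 × Fin 2) :
    K.DeltaJ (K.U g i j) = ∑ k, K.U g i k ⊗ₜ[ℂ] K.U g k j := by
  calc K.DeltaJ (K.U g i j)
      = (K.J * Delta Λ (K.X i.1 j.1)) * Delta Λ (gel g) * (Delta Λ (K.X i.2 j.2) * K.J) := by
        rw [DeltaJ_apply, U, map_mul, map_mul]; simp only [mul_assoc]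
    _ = (∑ k, K.X i.1 k ⊗ₜ[ℂ] K.X k j.1) * (gel g ⊗ₜ[ℂ] gel g) *
          (∑ k, K.X i.2 k ⊗ₜ[ℂ] K.X k j.2) := by
        rw [J_Delta_X, Delta_X_J, Delta_gel]
    _ = _ := by
        rw [Fintype.sum_prod_type]
        simp only [Finset.sum_mul, Finset.mul_sum, Algebra.TensorProduct.tmul_mul_tmul, U]
        rw [Finset.sum_comm]

lemma U_row (g : Λ) (i j : Fin 2 × Fin 2) :
    ∑ k, K.U g i k * star (K.U g j k) = if i = j then 1 else 0 := by
  simp only [star_U]
  rw [Fintype.sum_prod_type]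
  have h1 : ∀ k l : Fin 2, K.U g i (k, l) * (K.X j.2 l * gel g⁻¹ * K.X j.1 k) =
      K.X i.1 k * gel g * (K.X i.2 l * K.X j.2 l) * gel g⁻¹ * K.X j.1 k := by
    intro k l; simp only [U, mul_assoc]
  simp only [h1]
  have h2 : ∀ k : Fin 2, ∑ l, K.X i.1 k * gel g * (K.X i.2 l * K.X j.2 l) * gel g⁻¹ * K.X j.1 k =
      if i.2 = j.2 then K.X i.1 k * K.X j.1 k else 0 := by
    intro k
    rw [← Finset.sum_mul, ← Finset.sum_mul, ← Finset.mul_sum, X_row]
    split_ifs
    · rw [mul_one, mul_assoc (K.X i.1 k), gel_mul, mul_inv_cancel, gel_one, mul_one]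
    · simp
  simp only [h2]
  by_cases h : i.2 = j.2
  · simp only [h, if_true]
    rw [X_row]
    congr 1
    simp [Prod.ext_iff, h]
  · simp [h, Prod.ext_iff]

lemma U_col (g : Λ) (i j : Fin 2 × Fin 2) :
    ∑ k, star (K.U g k i) * K.U g k j = if i = j then 1 else 0 := by
  simp only [star_U]
  rw [Fintype.sum_prod_type, Finset.sum_comm]
  have h1 : ∀ k l : Fin 2, (K.X l i.2 * gel g⁻¹ * K.X k i.1) * K.U g (k, l) j =
      K.X l i.2 * gel g⁻¹ * (K.X k i.1 * K.X k j.1) * gel g * K.X l j.2 := by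
    intro k l; simp only [U, mul_assoc]
  simp only [h1]
  have h2 : ∀ l : Fin 2, ∑ k, K.X l i.2 * gel g⁻¹ * (K.X k i.1 * K.X k j.1) * gel g * K.X l j.2 =
      if i.1 = j.1 then K.X l i.2 * K.X l j.2 else 0 := by
    intro k
    rw [← Finset.sum_mul, ← Finset.sum_mul, ← Finset.mul_sum, X_col]
    split_ifs
    · rw [mul_one, mul_assoc (K.X k i.2), gel_mul, inv_mul_cancel, gel_one, mul_one]
    · simp
  simp only [h2]
  by_cases h : i.1 = j.1
  · simp only [h, if_true]
    rw [X_col]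
    congr 1
    simp [Prod.ext_iff, h]
  · simp [h, Prod.ext_iff]

lemma eps_a : eps Λ K.a = 1 := eps_gel _
lemma eps_b : eps Λ K.b = 1 := eps_gel _

lemma eps_X (i j : Fin 2) : eps Λ (K.X i j) = if i = j then 1 else 0 := by
  fin_cases i <;> fin_cases j <;> simp [X00, X01, X10, X11, eps_a, eps_b] <;> norm_num

lemma U_counit (g : Λ) (i j : Fin 2 × Fin 2) : eps Λ (K.U g i j) = if i = j then 1 else 0 := by
  simp only [U, map_mul, eps_gel, mul_one, eps_X, Prod.ext_iff]
  split_ifs <;> simp_all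

lemma conj_mul_aux (g h : Λ) :
    K.W * gel (g * h)⁻¹ * K.W = (K.W * gel h⁻¹ * K.W) * (K.W * gel g⁻¹ * K.W) := by
  rw [mul_inv_rev, ← gel_mul]
  calc K.W * (gel h⁻¹ * gel g⁻¹) * K.W = K.W * gel h⁻¹ * 1 * gel g⁻¹ * K.W := by
        simp only [mul_one, mul_assoc]
    _ = _ := by rw [← K.WW]; simp only [mul_assoc]

lemma conj_star_aux (g : Λ) :
    star (K.W * gel g⁻¹ * K.W) = K.W * gel g⁻¹⁻¹ * K.W := by
  rw [star_mul, star_mul, star_gel, star_W, mul_assoc]

lemma conj_one_aux : K.W * gel (1 : Λ)⁻¹ * K.W = 1 := by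
  rw [inv_one, gel_one, mul_one, K.WW]

/-- the antipode on group elements -/
def antipHom : Λ →* (GA Λ)ᵐᵒᵖ where
  toFun g := MulOpposite.op (K.W * gel g⁻¹ * K.W)
  map_one' := congrArg MulOpposite.op K.conj_one_aux
  map_mul' g h := congrArg MulOpposite.op (K.conj_mul_aux g h)

lemma antipHom_apply (g : Λ) : K.antipHom g = MulOpposite.op (K.W * gel g⁻¹ * K.W) := rfl

lemma antipHom_star (g : Λ) : star (K.antipHom g) = K.antipHom g⁻¹ := by
  rw [antipHom_apply, antipHom_apply, ← MulOpposite.op_star, conj_star_aux]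

/-- The antipode of the twisted Hopf algebra, `g ↦ W g⁻¹ W`. -/
def antip : GA Λ →⋆ₐ[ℂ] (GA Λ)ᵐᵒᵖ := liftStar K.antipHom K.antipHom_star

lemma antip_gel (g : Λ) : K.antip (gel g) = MulOpposite.op (K.W * gel g⁻¹ * K.W) := by
  rw [antip, liftStar_gel]; rfl

lemma W_a : K.W * K.a = K.a * K.W := by
  simp only [W, smul_mul_assoc, mul_smul_comm, mul_add, add_mul, mul_sub, sub_mul, mul_one,
    one_mul, mul_assoc, aa, bb, ba, aa', bb', ba']

lemma W_b : K.W * K.b = K.b * K.W := by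
  simp only [W, smul_mul_assoc, mul_smul_comm, mul_add, add_mul, mul_sub, sub_mul, mul_one,
    one_mul, mul_assoc, aa, bb, ba, aa', bb', ba']

lemma antip_a : K.antip K.a = MulOpposite.op K.a := by
  have : K.W * K.a * K.W = K.a := by rw [W_a, mul_assoc, WW, mul_one]
  rw [a, antip_gel, x_inv, ← a, this]

lemma antip_b : K.antip K.b = MulOpposite.op K.b := by
  have : K.W * K.b * K.W = K.b := by rw [W_b, mul_assoc, WW, mul_one]
  rw [b, antip_gel, y_inv, ← b, this]

lemma antip_X (i j : Fin 2) : K.antip (K.X i j) = MulOpposite.op (K.X i j) := by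
  fin_cases i <;> fin_cases j <;>
  simp [X00, X01, X10, X11, map_smul, map_add, map_sub, map_mul, antip_a, antip_b,
    ← MulOpposite.op_mul, ba]

lemma U_antip (g : Λ) (i j : Fin 2 × Fin 2) :
    K.antip (K.U g i j) = MulOpposite.op (star (K.U g j i)) := by
  rw [star_U, U, map_mul, map_mul, antip_X, antip_X, antip_gel, ← MulOpposite.op_mul,
    ← MulOpposite.op_mul]
  congr 1
  rw [← K.X_W i.2 j.2, ← K.W_X i.1 j.1]
  simp only [mul_assoc]

end Klein

end Pool.Agent.W381.QG
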